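import Pool.Agent.Y814.FD.QPencil

set_option autoImplicit false

/-!
Degree filtrations.
-/

namespace Pool.Agent.Y814.FD

open Pool.Agent.H193R3

universe u v w

open Matrix

/-- a degree filtration of a ring -/
structure Fil (Λ : Type u) [Ring Λ] where
  /-- the elements of degree at most `a` -/
  D : ℕ → Set Λ
  mono : ∀ {a b : ℕ}, a ≤ b → ∀ x ∈ D a, x ∈ D b
  zero0 : (0 : Λ) ∈ D 0
  one0 : (1 : Λ) ∈ D 0
  add : ∀ {a : ℕ} {x y : Λ}, x ∈ D a → y ∈ D a → x + y ∈ D a
  neg : ∀ {a : ℕ} {x : Λ}, x ∈ D a → -x ∈ D a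
  mul : ∀ {a b : ℕ} {x y : Λ}, x ∈ D a → y ∈ D b → x * y ∈ D (a + b)

namespace Fil

variable {Λ : Type u} [Ring Λ] (F : Fil Λ)

lemma zero (a : ℕ) : (0 : Λ) ∈ F.D a := F.mono (Nat.zero_le a) _ F.zero0

lemma one (a : ℕ) : (1 : Λ) ∈ F.D a := F.mono (Nat.zero_le a) _ F.one0

lemma sum {a : ℕ} {β : Type v} (s : Finset β) (f : β → Λ) (h : ∀ i ∈ s, f i ∈ F.D a) :
    ∑ i ∈ s, f i ∈ F.D a := by
  classical
  induction s using Finset.induction_on with
  | empty => rw [Finset.sum_empty]; exact F.zero a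
  | insert v s hv ih =>
    rw [Finset.sum_insert hv]
    exact F.add (h v (Finset.mem_insert_self _ _)) (ih fun i hi => h i (Finset.mem_insert_of_mem hi))

/-- matrices of degree at most `a` -/
def MD (a : ℕ) {ι κ : Type} (M : Matrix ι κ Λ) : Prop := ∀ i j, M i j ∈ F.D a

variable {F}

lemma MD.mono {a b : ℕ} (h : a ≤ b) {ι κ : Type} {M : Matrix ι κ Λ} (hM : F.MD a M) : F.MD b M :=
  fun i j => F.mono h _ (hM i j)

lemma MD.add {a : ℕ} {ι κ : Type} {M N : Matrix ι κ Λ} (hM : F.MD a M) (hN : F.MD a N) :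
    F.MD a (M + N) := fun i j => F.add (hM i j) (hN i j)

lemma MD.neg {a : ℕ} {ι κ : Type} {M : Matrix ι κ Λ} (hM : F.MD a M) : F.MD a (-M) :=
  fun i j => F.neg (hM i j)

lemma MD.mul {a b : ℕ} {ι κ μ : Type} [Fintype κ] {M : Matrix ι κ Λ} {N : Matrix κ μ Λ}
    (hM : F.MD a M) (hN : F.MD b N) : F.MD (a + b) (M * N) := by
  intro i j
  rw [Matrix.mul_apply]
  exact F.sum _ _ fun k _ => F.mul (hM i k) (hN k j)

lemma MD.one {a : ℕ} {ι : Type} [DecidableEq ι] : F.MD a (1 : Matrix ι ι Λ) := by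
  intro i j
  rw [Matrix.one_apply]
  split_ifs
  · exact F.one a
  · exact F.zero a

lemma MD.zero {a : ℕ} {ι κ : Type} : F.MD a (0 : Matrix ι κ Λ) := fun _ _ => F.zero a

lemma MD.sum {a : ℕ} {ι κ : Type} {β : Type v} (s : Finset β) (f : β → Matrix ι κ Λ)
    (h : ∀ i ∈ s, F.MD a (f i)) : F.MD a (∑ i ∈ s, f i) := by
  intro i j
  rw [Matrix.sum_apply]
  exact F.sum _ _ fun k hk => h k hk i j

lemma MD.pow {a : ℕ} {ι : Type} [Fintype ι] [DecidableEq ι] {M : Matrix ι ι Λ} (hM : F.MD a M)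
    (k : ℕ) : F.MD (k * a) (M ^ k) := by
  induction k with
  | zero => rw [pow_zero]; exact MD.one
  | succ k ih =>
    rw [pow_succ, Nat.succ_mul]
    exact ih.mul hM

lemma MD.prod {a : ℕ} {ι : Type} [Fintype ι] [DecidableEq ι] {X : Type} (T : X → Matrix ι ι Λ)
    (hM : ∀ j, F.MD a (T j)) (w : List X) : F.MD (w.length * a) (w.map T).prod := by
  induction w with
  | nil => rw [List.map_nil, List.prod_nil]; exact MD.one
  | cons j w ih =>
    rw [List.map_cons, List.prod_cons, List.length_cons, Nat.succ_mul, Nat.add_comm]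
    exact (hM j).mul ih

/-- the trivial filtration -/
def triv (Λ : Type u) [Ring Λ] : Fil Λ where
  D := fun _ => Set.univ
  mono := fun _ _ _ => trivial
  zero0 := trivial
  one0 := trivial
  add := fun _ _ => trivial
  neg := fun _ => trivial
  mul := fun _ _ => trivial

/-- the filtration of the free monoid algebra: degree and coefficients -/
def ext (F : Fil Λ) (X : Type) : Fil (MonoidAlgebra Λ (FreeMonoid X)) where
  D := fun a => {f | DegLE a f ∧ ∀ w, f.coeff w ∈ F.D a}
  mono := fun h f hf => ⟨hf.1.mono h, fun w => F.mono h _ (hf.2 w)⟩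
  zero0 := ⟨fun _ _ => rfl, fun _ => F.zero 0⟩
  one0 := by
    classical
    refine ⟨fun w hw => ?_, fun w => ?_⟩
    · rw [MonoidAlgebra.one_def, MonoidAlgebra.coeff_single, Finsupp.single_eq_of_ne]
      rintro rfl
      simp at hw
    · rw [MonoidAlgebra.one_def, MonoidAlgebra.coeff_single, Finsupp.single_apply]
      split_ifs
      · exact F.one 0
      · exact F.zero 0
  add := by
    intro a x y hx hy
    refine ⟨fun w hw => ?_, fun w => ?_⟩
    · rw [MonoidAlgebra.coeff_add, Finsupp.add_apply, hx.1 w hw, hy.1 w hw, add_zero]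
    · rw [MonoidAlgebra.coeff_add, Finsupp.add_apply]
      exact F.add (hx.2 w) (hy.2 w)
  neg := by
    intro a x hx
    refine ⟨fun w hw => ?_, fun w => ?_⟩
    · rw [MonoidAlgebra.coeff_neg, Finsupp.neg_apply, hx.1 w hw, neg_zero]
    · rw [MonoidAlgebra.coeff_neg, Finsupp.neg_apply]
      exact F.neg (hx.2 w)
  mul := by
    classical
    intro a b x y hx hy
    refine ⟨fun w hw => ?_, fun w => ?_⟩
    · rw [MonoidAlgebra.coeff_mul, Finsupp.sum]
      apply Finset.sum_eq_zero
      intro p hp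
      rw [Finsupp.sum]
      apply Finset.sum_eq_zero
      intro q hq
      rw [if_neg]
      rintro rfl
      rw [FreeMonoid.length_mul] at hw
      rcases Nat.lt_or_ge a p.length with h | h
      · exact (Finsupp.mem_support_iff.mp hp) (hx.1 p h)
      · exact (Finsupp.mem_support_iff.mp hq) (hy.1 q (by omega))
    · rw [MonoidAlgebra.coeff_mul, Finsupp.sum]
      apply F.sum
      intro p _
      rw [Finsupp.sum]
      apply F.sum
      intro q _
      split_ifs
      · exact F.mul (hx.2 p) (hy.2 q)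
      · exact F.zero _

lemma ext_single {F : Fil Λ} {X : Type} {a : ℕ} (w : FreeMonoid X) (x : Λ) (hw : w.length ≤ a)
    (hx : x ∈ F.D a) : MonoidAlgebra.single w x ∈ (F.ext X).D a := by
  classical
  refine ⟨fun v hv => ?_, fun v => ?_⟩
  · rw [MonoidAlgebra.coeff_single, Finsupp.single_eq_of_ne]
    rintro rfl
    omega
  · rw [MonoidAlgebra.coeff_single, Finsupp.single_apply]
    split_ifs
    · exact hx
    · exact F.zero _

end Fil

/-- matrices of size at most `s` and degree at most `e` all of whose evaluations of size at most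
`N` are invertible have an inverse of degree at most `E` -/
def UE (s e N E : ℕ) {Λ : Type u} [Ring Λ] (F : Fil Λ) : Prop :=
  ∀ (ι : Type) [Fintype ι] [DecidableEq ι], Fintype.card ι ≤ s → ∀ L : Matrix ι ι Λ,
    F.MD e L → AU N L → ∃ L' : Matrix ι ι Λ, L * L' = 1 ∧ L' * L = 1 ∧ F.MD E L'

/-- matrices of size at most `s` and degree at most `e` all of whose evaluations of size at most
`N` are nilpotent are nilpotent -/
def UN (s e N : ℕ) {Λ : Type u} [Ring Λ] (F : Fil Λ) : Prop :=
  ∀ (ι : Type) [Fintype ι] [DecidableEq ι], Fintype.card ι ≤ s → ∀ T : Matrix ι ι Λ,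
    F.MD e T → AN N T → IsNilpotent T

theorem UE.of_commDomain (Λ : Type u) [CommRing Λ] [IsDomain Λ] (s : ℕ) :
    UE s 0 1 0 (Fil.triv Λ) := by
  intro ι _ _ _ L _ hL
  have h := hL Unit (by simp) Λ (Matrix.scalar Unit)
  obtain ⟨V, hV⟩ := h.exists_right_inv
  have h1 : L * (V.map (fun M => M () ())) = 1 := by
    ext a b
    have h2 := congrFun (congrFun (congrFun (congrFun hV a) b) ()) ()
    rw [Matrix.mul_apply] at h2 ⊢
    rw [Matrix.sum_apply] at h2
    simp only [RingHom.mapMatrix_apply, Matrix.map_apply, Matrix.mul_apply,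
      Finset.univ_unique, Finset.sum_singleton, Matrix.scalar_apply] at h2 ⊢
    rw [Matrix.one_apply] at h2 ⊢
    split_ifs at h2 ⊢ with h3
    · simpa using h2
    · simpa using h2
  refine ⟨_, h1, ?_, fun _ _ => trivial⟩
  exact mul_eq_one_comm.1 h1

theorem UN.of_commDomain (Λ : Type u) [CommRing Λ] [IsDomain Λ] (s e : ℕ) :
    UN s e 1 (Fil.triv Λ) := by
  intro ι _ _ _ T _ hT
  obtain ⟨k, hk⟩ := hT Unit (by simp) Λ (Matrix.scalar Unit)
  refine ⟨k, ?_⟩
  rw [← map_pow] at hk
  ext a b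
  have h2 := congrFun (congrFun (congrFun (congrFun hk a) b) ()) ()
  simpa using h2

end Pool.Agent.Y814.FD
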