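import Pool.Agent.Y814.FD.QSurj

set_option autoImplicit false

/-!
Endomorphisms of bounded degree which are approximated by an automorphism to one high order.
-/

namespace Pool.Agent.Y814.FD

open Pool.Agent.H193R3

universe u v w

/-- finite determinacy: one level of approximation, depending only on the number of variables and
on the degree, makes an endomorphism an automorphism with inverse of bounded degree -/
theorem fin_det (K : Type u) [Field K] (n d S S1 g0 D s0 M : ℕ) (hS : S = n * (1 + n) ^ d)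
    (hS1 : S1 = S * (1 + n) ^ d) (hg0 : g0 = lv (S * (1 + n) ^ (lv S * (S1 + d))))
    (hD : D = S * (S1 + d + 1) + S1) (hs0 : s0 = ∑ k ∈ Finset.range (D + 2), n ^ k)
    (hM1 : n * (lv S * g0) * d + 2 ≤ M) (hM2 : s0 * lv s0 + 1 ≤ M)
    (φ : FA K n →ₐ[K] FA K n) (hd : ∀ i, φ (gx i) ∈ degA K n d) (happ : App M φ) :
    Function.Bijective φ ∧ ∀ i, ∃ g ∈ degA K n s0, φ g = gx i := by
  classical
  let c : Fin n → K := fun j => -eps K n (φ (gx j))
  let c' : Fin n → K := fun j => -c j
  have hcc' : ∀ j, c j + c' j = 0 := fun j => by simp [c']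
  have hcc : ∀ j, c' j + c j = 0 := fun j => by simp [c']
  let φ' : FA K n →ₐ[K] FA K n := φ.comp (tr c)
  have hφ'gx : ∀ i, φ' (gx i) = φ (gx i) + c i • (1 : FA K n) := by
    intro i
    show φ (tr c (gx i)) = _
    rw [tr_gx, map_add, map_smul, map_one]
  have hφ0 : ∀ i, eps K n (φ' (gx i)) = 0 := by
    intro i
    rw [hφ'gx, map_add, map_smul, map_one, smul_eq_mul, mul_one]
    simp [c]
  have hd' : ∀ i, φ' (gx i) ∈ degA K n d := by
    intro i
    rw [hφ'gx]
    exact Submodule.add_mem _ (hd i) (Submodule.smul_mem _ _ one_mem_degA)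
  have happ' : App M φ' := by
    obtain ⟨p, α, hα⟩ := happ
    refine ⟨p, (trE c).trans α, fun i => ?_⟩
    have h2 : φ' (gx i) - ((trE c).trans α) (gx i) = φ (gx i) - α (gx i) := by
      show φ (tr c (gx i)) - α (tr c (gx i)) = _
      rw [tr_gx, map_add, map_smul, map_one, map_add, map_smul, map_one]
      abel
    rw [h2]
    exact hα i
  have hAU : AU (lv S * g0) (Jac φ') := Jac_AU φ' d (lv S * g0) hd' (happ'.mono hM1)
  obtain ⟨N, hJN, hNJ, hND⟩ := env_q K n n d S S1 g0 hS hS1 hg0 (Fin n) (by rw [Fintype.card_fin])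
    (Jac φ') (fun i j => fwd_dd j (hd' i)) hAU
  rw [← hD] at hND
  have hsurj := surj_q φ' N hφ0 hJN hNJ D s0 hND
    (by rw [hs0, finrank_degA]; exact cnt_le n (D + 1)) (happ'.mono hM2)
  have hinj := inj_of_Jac φ' hφ0 N hJN
  have hφφ' : ∀ a, φ a = φ' (tr c' a) := by
    intro a
    show φ a = φ (tr c (tr c' a))
    rw [tr_tr c c' hcc']
  have hpre : ∀ i, ∃ g ∈ degA K n s0, φ g = gx i := by
    intro i
    obtain ⟨g, hg1, hg2⟩ := hsurj i
    exact ⟨tr c g, tr_mem c hg1, hg2⟩
  refine ⟨⟨?_, ?_⟩, hpre⟩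
  · intro a b hab
    rw [hφφ', hφφ'] at hab
    exact (trE c').injective (hinj hab)
  · intro a
    have htop : a ∈ φ.range := by
      induction a using FA_induction with
      | h0 => exact Subalgebra.zero_mem _
      | hadd x y hx hy => exact Subalgebra.add_mem _ hx hy
      | hmon w c =>
        apply Subalgebra.smul_mem
        induction w using FreeMonoid.inductionOn' with
        | one => exact Subalgebra.one_mem _
        | of_mul i w ih =>
          rw [mon_mul, mon_of]
          obtain ⟨g, _, hg⟩ := hpre i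
          exact Subalgebra.mul_mem _ ((AlgHom.mem_range φ).mpr ⟨g, hg⟩) ih
    obtain ⟨b, hb⟩ := htop
    exact ⟨b, hb⟩

end Pool.Agent.Y814.FD
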