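import Pool.Agent.Y814.FD.QTwo
import Pool.Agent.H193R3.Final

set_option autoImplicit false

/-!
The Jacobian matrix of an endomorphism of bounded degree which is approximated to one high order
by an automorphism.
-/

namespace Pool.Agent.Y814.FD

open Pool.Agent.H193R3

universe u v w

open Matrix

open scoped TensorProduct
open MulOpposite Polynomial

variable {K : Type u} [Field K] {n : ℕ}

lemma degA_mul {a b : ℕ} {x y : FA K n} (hx : x ∈ degA K n a) (hy : y ∈ degA K n b) :
    x * y ∈ degA K n (a + b) :=
  (ext_triv_iff _).1 (((Fil.triv K).ext (Fin n)).mul ((ext_triv_iff _).2 hx)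
    ((ext_triv_iff _).2 hy))

lemma one_mem_degA {a : ℕ} : (1 : FA K n) ∈ degA K n a :=
  (ext_triv_iff _).1 (Fil.one _ _)

lemma gx_mem_degA (i : Fin n) : (gx i : FA K n) ∈ degA K n 1 :=
  mon_mem_degA (FreeMonoid.of i) (by simp)

lemma tr_mem {a : ℕ} (p : Fin n → K) {x : FA K n} (hx : x ∈ degA K n a) :
    tr p x ∈ degA K n a := by
  have h1 : ∀ w : FreeMonoid (Fin n), tr p (mon w) ∈ degA K n w.length := by
    intro w
    induction w using FreeMonoid.inductionOn' with
    | one => rw [mon_one, map_one]; exact one_mem_degA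
    | of_mul i w ih =>
      rw [mon_mul, map_mul, FreeMonoid.length_mul, FreeMonoid.length_of, mon_of, tr_gx]
      exact degA_mul (Submodule.add_mem _ (gx_mem_degA i)
        (Submodule.smul_mem _ _ one_mem_degA)) ih
  rw [FA_sum x, map_sum]
  apply Submodule.sum_mem
  intro w hw
  rw [map_smul]
  apply Submodule.smul_mem
  apply degA_mono _ (h1 w)
  by_contra hlt
  exact (Finsupp.mem_support_iff.mp hw) (mem_degA.1 hx w (by omega))

lemma sig_dd_deg {a : ℕ} (j : Fin n) {x : FA K n} (hx : x ∈ degA K n a) (k : ℕ) (hk : a ≤ k) :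
    (sig K n (dd j x)).coeff k = 0 := by
  rw [FA_sum x, map_sum, map_sum, finsetSum_coeff]
  apply Finset.sum_eq_zero
  intro w hw
  rw [map_smul, map_smul, coeff_smul, sig_dd_mon, smul_zero]
  intro h
  exact (Finsupp.mem_support_iff.mp hw) (mem_degA.1 hx w (by omega))

/-- approximable to order `m` by an automorphism, at some point -/
def App (m : ℕ) (φ : FA K n →ₐ[K] FA K n) : Prop :=
  ∃ (p : Fin n → K) (α : FA K n ≃ₐ[K] FA K n), ∀ i, OrdGE m (tr p (φ (gx i) - α (gx i)))

lemma App.mono {m m' : ℕ} (h : m ≤ m') {φ : FA K n →ₐ[K] FA K n} (hφ : App m' φ) : App m φ := by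
  obtain ⟨p, α, hα⟩ := hφ
  exact ⟨p, α, fun i => (hα i).mono h⟩

theorem Jac_AU (φ : FA K n →ₐ[K] FA K n) (d N : ℕ) (hd : ∀ i, φ (gx i) ∈ degA K n d)
    (hφ : App (n * N * d + 2) φ) : AU N (Jac φ) := by
  intro κ _ _ hκ R _ _ ev
  set m := n * N * d + 1 with hm
  obtain ⟨p, α, hα⟩ := hφ
  obtain ⟨N', hN⟩ := Jac_left_inv α
  let q : Fin n → K := fun j => -p j
  have hpq : ∀ j, q j + p j = 0 := fun j => by simp [q]
  have h0 : ((ev.comp (til (tr q)).toRingHom).mapMatrix
      ((til (tr p)).toRingHom.mapMatrix (Jac φ))) = ev.mapMatrix (Jac φ) := by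
    refine Matrix.ext fun a b => ?_
    show ev (til (tr q) (til (tr p) (Jac φ a b))) = ev (Jac φ a b)
    rw [til_til q p hpq]
  rw [← h0]
  apply closure_unit (sig K n).toRingHom sig_eval (ev.comp (til (tr q)).toRingHom)
    ((til (tr p)).toRingHom.mapMatrix (Jac φ))
    ((til (tr p)).toRingHom.mapMatrix (Jac (α : FA K n →ₐ[K] FA K n)))
    ((til (tr p)).toRingHom.mapMatrix N') d m
  · intro a b k hk
    have h1 : (til (tr p)).toRingHom.mapMatrix (Jac φ) a b = dd b (tr p (φ (gx a))) := by
      rw [dd_tr]; rfl
    rw [h1]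
    exact sig_dd_deg b (tr_mem p (hd a)) k hk.le
  · rw [Fintype.card_fin, hm]
    exact Nat.lt_succ_of_le (Nat.mul_le_mul (Nat.mul_le_mul le_rfl hκ) le_rfl)
  · right
    rw [← map_mul, hN, map_one]
  · intro a b k hk
    have h1 : (til (tr p)).toRingHom.mapMatrix (Jac φ) a b
        - (til (tr p)).toRingHom.mapMatrix (Jac (α : FA K n →ₐ[K] FA K n)) a b
        = dd b (tr p (φ (gx a) - α (gx a))) := by
      rw [dd_tr, map_sub, map_sub]
      rfl
    rw [h1]
    exact sig_dd b _ (m + 1) (hα a) k (by omega)

/-- injectivity from the invertibility of the Jacobian matrix -/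
theorem inj_of_Jac (φ : FA K n →ₐ[K] FA K n) (hφ0 : ∀ i, eps K n (φ (gx i)) = 0)
    (N : Matrix (Fin n) (Fin n) (AA K n)) (hJN : Jac φ * N = 1) : Function.Injective φ := by
  rw [injective_iff_map_eq_zero]
  have key : ∀ (m : ℕ) (h : FA K n), h ∈ degA K n m → φ h = 0 → h = 0 := by
    intro m
    induction m with
    | zero =>
      intro h hh h0
      have h1 : h = h.coeff 1 • (1 : FA K n) := by
        ext w
        rw [MonoidAlgebra.coeff_smul, Finsupp.smul_apply]
        by_cases hw : w = 1
        · subst hw; simp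
        · have h2 : h.coeff w = 0 := by
            apply mem_degA.1 hh
            have : w.length ≠ 0 := fun h => hw (FreeMonoid.length_eq_zero.mp h)
            omega
          rw [h2, MonoidAlgebra.one_def, MonoidAlgebra.coeff_single, Finsupp.single_eq_of_ne hw,
            smul_zero]
      rw [h1, map_smul, map_one φ] at h0
      rw [h1]
      exact h0
    | succ m ih =>
      intro h hh h0
      have hdec : h = h.coeff 1 • (1 : FA K n) + ∑ j, gx j * strip j h := by
        conv_lhs => rw [strip_decomp h]
        congr 1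
        rw [single_eq, mon_one]
      have h1 : ∀ l, strip l h = 0 := by
        intro l
        apply ih
        · rw [mem_degA] at hh ⊢
          intro w hw
          rw [coeff_strip]
          apply hh
          rw [FreeMonoid.length_mul, FreeMonoid.length_of]
          omega
        · have h2 := congrArg (lam N l) h0
          rw [map_zero] at h2
          rw [hdec, map_add, map_smul, map_one φ, map_sum, map_add, map_smul, lam_one, smul_zero,
            zero_add, map_sum] at h2
          simp only [map_mul, lam_f_mul φ N hφ0 hJN] at h2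
          simpa using h2
      have h3 : h = h.coeff 1 • (1 : FA K n) := by
        conv_lhs => rw [hdec]
        rw [Finset.sum_eq_zero (fun j _ => by rw [h1 j, mul_zero]), add_zero]
      rw [h3, map_smul, map_one φ] at h0
      rw [h3]
      exact h0
  intro h h0
  obtain ⟨D, hD⟩ := exists_degA h
  exact key D h hD h0

end Pool.Agent.Y814.FD
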