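import Pool.Agent.H193R3.LevMatrix

set_option autoImplicit false

/-!
Levitzki's theorem over a division ring, quantitative form: it suffices that the words of bounded
length are nilpotent.
-/

namespace Pool.Agent.Y814.FD

open Pool.Agent.H193R3

universe u v w

/-- the length bound -/
def lv (s : ℕ) : ℕ := 2 ^ s * (1 + s)

lemma lv_mono {s t : ℕ} (h : s ≤ t) : lv s ≤ lv t := by
  unfold lv
  exact Nat.mul_le_mul (Nat.pow_le_pow_right (by norm_num) h) (by omega)

lemma lv_pos (s : ℕ) : 1 ≤ lv s := by
  unfold lv
  exact Nat.one_le_iff_ne_zero.2 (by positivity)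

section

variable {D : Type u} [DivisionRing D] {X : Type w} {V : Type v} [AddCommGroup V] [Module D V]
  [FiniteDimensional D V]

/-- the span of the images of a subspace under the short words -/
def sh (T : X → Module.End D V) (U : Submodule D V) (i : ℕ) : Submodule D V :=
  ⨆ v : {v : List X // v.length ≤ i}, Submodule.map (v.1.map T).prod U

omit [FiniteDimensional D V] in
lemma sh_mono (T : X → Module.End D V) (U : Submodule D V) {i j : ℕ} (h : i ≤ j) :
    sh T U i ≤ sh T U j := by
  unfold sh
  refine iSup_le ?_
  rintro ⟨v, hv⟩
  exact le_iSup (fun v : {v : List X // v.length ≤ j} => Submodule.map (v.1.map T).prod U)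
    ⟨v, hv.trans h⟩

omit [FiniteDimensional D V] in
lemma sh_map (T : X → Module.End D V) (U : Submodule D V) (i : ℕ) (j : X) :
    Submodule.map (T j) (sh T U i) ≤ sh T U (i + 1) := by
  unfold sh
  rw [Submodule.map_iSup]
  refine iSup_le ?_
  rintro ⟨v, hv⟩
  have h10 : Submodule.map (T j) (Submodule.map (v.map T).prod U)
      = Submodule.map ((j :: v).map T).prod U := by
    rw [← Submodule.map_comp, List.map_cons, List.prod_cons]
    rfl
  rw [h10]
  exact le_iSup (fun v : {v : List X // v.length ≤ i + 1} => Submodule.map (v.1.map T).prod U)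
    ⟨j :: v, by simpa using hv⟩

omit [FiniteDimensional D V] in
lemma sh_base (T : X → Module.End D V) (U : Submodule D V) (i : ℕ) : U ≤ sh T U i := by
  intro x hx
  have h1 : Submodule.map (([] : List X).map T).prod U ≤ sh T U i :=
    le_iSup (fun v : {v : List X // v.length ≤ i} => Submodule.map (v.1.map T).prod U)
      ⟨[], by simp⟩
  exact h1 ⟨x, hx, by simp⟩

lemma sh_grow (T : X → Module.End D V) (U : Submodule D V) (k : ℕ)
    (h : ∀ i < k, sh T U i ≠ sh T U (i + 1)) : k ≤ Module.finrank D (sh T U k) := by
  induction k with
  | zero => exact Nat.zero_le _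
  | succ k ih =>
    have h1 := ih (fun i hi => h i (by omega))
    have h2 : sh T U k < sh T U (k + 1) :=
      lt_of_le_of_ne (sh_mono T U (Nat.le_succ k)) (h k (by omega))
    have h3 := Submodule.finrank_lt_finrank_of_lt h2
    omega

lemma sh_stab (T : X → Module.End D V) (U : Submodule D V) (s : ℕ)
    (hs : Module.finrank D V ≤ s) : ∃ i ≤ s, sh T U i = sh T U (i + 1) := by
  by_contra hcon
  push Not at hcon
  have h1 := sh_grow T U (s + 1) (fun i hi => hcon i (by omega))
  have h2 := Submodule.finrank_le (sh T U (s + 1))
  omega

/-- if the short words map `U` into the kernel, then all words do -/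
lemma all_of_short (T : X → Module.End D V) (T0 : Module.End D V) (s : ℕ)
    (hs : Module.finrank D V ≤ s)
    (h : ∀ v : List X, v.length ≤ s → T0 * (v.map T).prod * T0 = 0) (v : List X) :
    T0 * (v.map T).prod * T0 = 0 := by
  obtain ⟨i, hi, hst⟩ := sh_stab T (LinearMap.range T0) s hs
  have hinv : ∀ w : List X, Submodule.map (w.map T).prod (LinearMap.range T0)
      ≤ sh T (LinearMap.range T0) i := by
    intro w
    induction w with
    | nil =>
      rw [List.map_nil, List.prod_nil]
      rintro _ ⟨x, hx, rfl⟩
      exact sh_base T _ i hx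
    | cons j w ih =>
      rw [List.map_cons, List.prod_cons]
      have : Submodule.map (T j * (w.map T).prod) (LinearMap.range T0)
          = Submodule.map (T j) (Submodule.map (w.map T).prod (LinearMap.range T0)) := by
        rw [← Submodule.map_comp]
        rfl
      rw [this, hst]
      exact (Submodule.map_mono ih).trans (sh_map T _ i j)
  have hker : sh T (LinearMap.range T0) i ≤ LinearMap.ker T0 := by
    refine iSup_le ?_
    rintro ⟨w, hw⟩
    rintro _ ⟨_, ⟨x, rfl⟩, rfl⟩
    rw [LinearMap.mem_ker]
    have := congrArg (fun f : Module.End D V => f x) (h w (hw.trans hi))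
    simpa [Module.End.mul_apply] using this
  ext x
  have h1 : (v.map T).prod (T0 x) ∈ LinearMap.ker T0 :=
    hker (hinv v ⟨T0 x, ⟨x, rfl⟩, rfl⟩)
  simpa [Module.End.mul_apply] using h1

/-- a word with square-zero property -/
lemma exists_sq (T : X → Module.End D V) (s : ℕ) (hs : Module.finrank D V ≤ s) (r : ℕ) :
    ∀ (ℓ : ℕ) (w0 : List X), w0 ≠ [] → w0.length ≤ ℓ → (w0.map T).prod ≠ 0 →
      Module.finrank D (LinearMap.range (w0.map T).prod) ≤ r →
      (∀ w : List X, w ≠ [] → w.length ≤ 2 ^ r * (ℓ + s) → IsNilpotent (w.map T).prod) →
      ∃ w1 : List X, w1 ≠ [] ∧ (w1.map T).prod ≠ 0 ∧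
        ∀ v : List X, (w1.map T).prod * (v.map T).prod * (w1.map T).prod = 0 := by
  induction r with
  | zero =>
    intro ℓ w0 _ _ h0 hr _
    exfalso
    apply h0
    have : LinearMap.range (w0.map T).prod = ⊥ := Submodule.finrank_eq_zero.1 (by omega)
    rwa [LinearMap.range_eq_bot] at this
  | succ r ih =>
    intro ℓ w0 hne hl h0 hr hnil
    set T0 := (w0.map T).prod with hT0
    by_cases hz : ∀ v : List X, v.length ≤ s → T0 * (v.map T).prod * T0 = 0
    · exact ⟨w0, hne, h0, all_of_short T T0 s hs hz⟩
    · push Not at hz
      obtain ⟨v, hv, hvne⟩ := hz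
      have hword : ((w0 ++ v ++ w0).map T).prod = T0 * (v.map T).prod * T0 := by
        rw [List.map_append, List.map_append, List.prod_append, List.prod_append]
      have hlen : (w0 ++ v ++ w0).length ≤ 2 * ℓ + s := by
        rw [List.length_append, List.length_append]
        omega
      have hle : LinearMap.range (T0 * (v.map T).prod * T0) ≤ LinearMap.range T0 := by
        rintro _ ⟨x, rfl⟩
        exact ⟨((v.map T).prod * T0) x, by simp [Module.End.mul_apply]⟩
      have hpow : 2 ^ (r + 1) * (ℓ + s) = 2 ^ r * (2 * ℓ + s + s) := by
        rw [pow_succ]; ring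
      have hrank : Module.finrank D (LinearMap.range (T0 * (v.map T).prod * T0)) ≤ r := by
        by_contra hcon
        have heq := Submodule.eq_of_le_of_finrank_le hle (by omega)
        obtain ⟨k, hk⟩ := hnil (w0 ++ v) (by simp [hne]) (by
          rw [List.length_append]
          have h2 : 1 ≤ 2 ^ (r + 1) := Nat.one_le_two_pow
          calc w0.length + v.length ≤ ℓ + s := by omega
            _ ≤ 2 ^ (r + 1) * (ℓ + s) := Nat.le_mul_of_pos_left _ h2)
        have hword2 : ((w0 ++ v).map T).prod = T0 * (v.map T).prod := by
          simp [List.map_append, List.prod_append, hT0]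
        rw [hword2] at hk
        have hmap : ∀ m : ℕ, Submodule.map ((T0 * (v.map T).prod) ^ m) (LinearMap.range T0)
            = LinearMap.range T0 := by
          intro m
          induction m with
          | zero => simp [Module.End.one_eq_id]
          | succ m ih =>
            have h2 : Submodule.map (T0 * (v.map T).prod) (LinearMap.range T0)
                = LinearMap.range T0 := by
              conv_rhs => rw [← heq]
              rw [← LinearMap.range_comp]
              rfl
            have h3 : Submodule.map ((T0 * (v.map T).prod) ^ (m + 1)) (LinearMap.range T0)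
                = Submodule.map ((T0 * (v.map T).prod) ^ m)
                  (Submodule.map (T0 * (v.map T).prod) (LinearMap.range T0)) := by
              rw [← Submodule.map_comp, pow_succ]
              rfl
            rw [h3, h2, ih]
        have h4 := hmap k
        rw [hk] at h4
        apply h0
        rw [← LinearMap.range_eq_bot, ← h4]
        exact Submodule.map_zero _
      exact ih (2 * ℓ + s) (w0 ++ v ++ w0) (by simp [hne]) hlen (by rw [hword]; exact hvne)
        (by rw [hword]; exact hrank) (fun w hw hwl => hnil w hw (by rw [hpow]; exact hwl))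

lemma exists_invariant_q (s : ℕ) (hs : Module.finrank D V ≤ s)
    (T : X → Module.End D V) (hnt : Nontrivial V)
    (hnil : ∀ w : List X, w ≠ [] → w.length ≤ lv s → IsNilpotent (w.map T).prod)
    (hne : ∃ j, T j ≠ 0) :
    ∃ U : Submodule D V, U ≠ ⊥ ∧ U ≠ ⊤ ∧ ∀ j, ∀ x ∈ U, T j x ∈ U := by
  classical
  obtain ⟨j0, hj0⟩ := hne
  obtain ⟨w0, hw0, hT0, hzero⟩ := exists_sq T s hs s 1 [j0] (by simp) (by simp)
    (by simpa using hj0) ((Submodule.finrank_le _).trans hs) hnil
  set T0 := (w0.map T).prod with hT0def
  have hU : LinearMap.range T0 ≠ ⊥ := by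
    rwa [Ne, LinearMap.range_eq_bot]
  have hsq : T0 * T0 = 0 := by
    have := hzero []
    simpa using this
  let U'' : Submodule D V := ⨆ v : {v : List X // v ≠ []},
    Submodule.map (v.1.map T).prod (LinearMap.range T0)
  by_cases hU'' : U'' = ⊥
  · refine ⟨LinearMap.range T0, hU, ?_, ?_⟩
    · intro htop
      apply hT0
      ext x
      have hx : x ∈ LinearMap.range T0 := by rw [htop]; exact Submodule.mem_top
      obtain ⟨y, rfl⟩ := hx
      have := congrArg (fun f : Module.End D V => f y) hsq
      simpa [Module.End.mul_apply] using this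
    · intro j x hx
      have h7 : Submodule.map ([j].map T).prod (LinearMap.range T0) ≤ U'' :=
        le_iSup (fun v : {v : List X // v ≠ []} =>
          Submodule.map (v.1.map T).prod (LinearMap.range T0)) ⟨[j], by simp⟩
      rw [hU''] at h7
      have h8 : T j x ∈ Submodule.map ([j].map T).prod (LinearMap.range T0) :=
        ⟨x, hx, by simp⟩
      have h9 := h7 h8
      rw [Submodule.mem_bot] at h9
      rw [h9]
      exact Submodule.zero_mem _
  · refine ⟨U'', hU'', ?_, ?_⟩
    · intro htop
      have hker : U'' ≤ LinearMap.ker T0 := by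
        refine iSup_le ?_
        rintro ⟨v, hv⟩
        rintro _ ⟨_, ⟨x, rfl⟩, rfl⟩
        rw [LinearMap.mem_ker]
        have := congrArg (fun f : Module.End D V => f x) (hzero v)
        simpa [Module.End.mul_apply] using this
      rw [htop] at hker
      apply hT0
      ext x
      have : x ∈ LinearMap.ker T0 := hker Submodule.mem_top
      simpa using this
    · intro j x hx
      have hmap : Submodule.map (T j) U'' ≤ U'' := by
        rw [Submodule.map_iSup]
        refine iSup_le ?_
        rintro ⟨v, hv⟩
        have h10 : Submodule.map (T j) (Submodule.map (v.map T).prod (LinearMap.range T0))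
            = Submodule.map ((j :: v).map T).prod (LinearMap.range T0) := by
          rw [← Submodule.map_comp, List.map_cons, List.prod_cons]
          rfl
        rw [h10]
        exact le_iSup (fun v : {v : List X // v ≠ []} =>
          Submodule.map (v.1.map T).prod (LinearMap.range T0)) ⟨j :: v, by simp⟩
      exact hmap ⟨x, hx, rfl⟩

end

theorem levitzki_q {D : Type u} [DivisionRing D] {X : Type w} (s : ℕ) :
    ∀ (V : Type v) [AddCommGroup V] [Module D V] [FiniteDimensional D V]
      (T : X → Module.End D V), Module.finrank D V ≤ s →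
      (∀ w : List X, w ≠ [] → w.length ≤ lv s → IsNilpotent (w.map T).prod) →
      ∀ w : List X, s ≤ w.length → (w.map T).prod = 0 := by
  induction s using Nat.strong_induction_on with
  | _ s IH =>
  intro V _ _ _ T hs hnil w hw
  classical
  rcases subsingleton_or_nontrivial V with hsub | hnt
  · ext x; exact Subsingleton.elim _ _
  have hpos : 0 < Module.finrank D V := Module.finrank_pos
  by_cases hne : ∃ j, T j ≠ 0
  · obtain ⟨U, hUb, hUt, hinv⟩ := exists_invariant_q s hs T hnt hnil hne
    -- restricted maps
    let T' : X → Module.End D U := fun j => (T j).restrict (hinv j)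
    let T'' : X → Module.End D (V ⧸ U) := fun j => U.mapQ U (T j) (fun x hx => hinv j x hx)
    have hT' : ∀ (v : List X) (x : U), (((v.map T').prod x : U) : V) = (v.map T).prod x := by
      intro v
      induction v with
      | nil => intro x; simp
      | cons j v ih =>
        intro x
        simp only [List.map_cons, List.prod_cons, Module.End.mul_apply]
        rw [← ih]
        rfl
    have hT'' : ∀ (v : List X) (x : V),
        (v.map T'').prod (U.mkQ x) = U.mkQ ((v.map T).prod x) := by
      intro v
      induction v with
      | nil => intro x; simp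
      | cons j v ih =>
        intro x
        simp only [List.map_cons, List.prod_cons, Module.End.mul_apply]
        rw [ih]
        rfl
    have hsum : Module.finrank D (V ⧸ U) + Module.finrank D U = Module.finrank D V :=
      Submodule.finrank_quotient_add_finrank U
    have ha : Module.finrank D U < Module.finrank D V := Submodule.finrank_lt hUt
    have ha0 : 0 < Module.finrank D U := by
      rcases Nat.eq_zero_or_pos (Module.finrank D U) with h0 | h0
      · exact absurd (Submodule.finrank_eq_zero.mp h0) hUb
      · exact h0
    have hb : Module.finrank D (V ⧸ U) < Module.finrank D V := by omega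
    have hnil' : ∀ v : List X, v ≠ [] → v.length ≤ lv (Module.finrank D U) →
        IsNilpotent (v.map T').prod := by
      intro v hv hvl
      obtain ⟨k, hk⟩ := hnil v hv (hvl.trans (lv_mono (by omega)))
      refine ⟨k, ?_⟩
      ext x
      rw [coe_pow_of_coe _ _ (hT' v), hk]
      simp
    have hnil'' : ∀ v : List X, v ≠ [] → v.length ≤ lv (Module.finrank D (V ⧸ U)) →
        IsNilpotent (v.map T'').prod := by
      intro v hv hvl
      obtain ⟨k, hk⟩ := hnil v hv (hvl.trans (lv_mono (by omega)))
      refine ⟨k, ?_⟩
      apply LinearMap.ext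
      intro y
      obtain ⟨x, rfl⟩ := Submodule.mkQ_surjective U y
      rw [mk_pow_of_mk _ _ (hT'' v), hk]
      simp
    have r1 := IH (Module.finrank D U) (by omega) U T' le_rfl hnil'
    have r2 := IH (Module.finrank D (V ⧸ U)) (by omega) (V ⧸ U) T'' le_rfl hnil''
    set b := Module.finrank D (V ⧸ U) with hbdef
    have hsplit : w = w.take (w.length - b) ++ w.drop (w.length - b) :=
      (List.take_append_drop _ _).symm
    rw [hsplit, List.map_append, List.prod_append]
    ext x
    rw [Module.End.mul_apply]
    have h1 : ((w.drop (w.length - b)).map T).prod x ∈ U := by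
      have h2 := r2 (w.drop (w.length - b)) (by rw [List.length_drop]; omega)
      have h3 := hT'' (w.drop (w.length - b)) x
      rw [h2] at h3
      have h4 : U.mkQ (((w.drop (w.length - b)).map T).prod x) = 0 := by
        rw [← h3]; rfl
      simpa using h4
    have h5 := hT' (w.take (w.length - b)) ⟨_, h1⟩
    rw [r1 (w.take (w.length - b)) (by rw [List.length_take]; omega)] at h5
    simpa using h5.symm
  · push Not at hne
    cases w with
    | nil => simp at hw; omega
    | cons j w => simp [hne j]

theorem levitzki_matrix_q {Λ : Type u} [Ring Λ] {D : Type v} [DivisionRing D] (e : Λ →+* D)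
    (he : Function.Injective e) {ι : Type} [Fintype ι] [DecidableEq ι] {X : Type w}
    (T : X → Matrix ι ι Λ)
    (hnil : ∀ w : List X, w ≠ [] → w.length ≤ lv (Fintype.card ι) → IsNilpotent (w.map T).prod) :
    ∀ w : List X, Fintype.card ι ≤ w.length → (w.map T).prod = 0 := by
  intro w hw
  let F : Matrix ι ι Λ →+* Matrix ι ι D := e.mapMatrix
  have hF : Function.Injective F := fun M N h => by
    ext i j
    exact he (congrFun (congrFun h i) j)
  have hwords : ∀ l : List X, (l.map (fun j => F (T j))).prod = F ((l.map T).prod) := by
    intro l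
    rw [map_list_prod, List.map_map]
    rfl
  have key := levitzki_q (D := D) (Fintype.card ι) (ι → D) (fun j => vm (F (T j)))
    (by simp) (by
      intro l hl hll
      rw [vm_list, hwords]
      obtain ⟨k, hk⟩ := hnil l.reverse (by simpa using hl) (by simpa using hll)
      refine ⟨k, ?_⟩
      rw [← vm_pow, ← map_pow, hk, map_zero]
      apply LinearMap.ext
      intro x
      rw [vm_apply, Matrix.vecMul_zero]
      rfl) w.reverse (by simpa using hw)
  rw [vm_list, hwords, List.reverse_reverse] at key
  have h2 := vm_injective key
  apply hF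
  rw [h2, map_zero]

end Pool.Agent.Y814.FD
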