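import Pool.Agent.H193R3.Thm1
import Pool.Agent.Y814.FD.QLev

set_option autoImplicit false

/-!
Pencils over a free monoid algebra, quantitative form: evaluations of bounded size suffice.
-/

namespace Pool.Agent.Y814.FD

open Pool.Agent.H193R3

universe u v w

open Matrix

theorem pencil_nil_q {Λ : Type u} [Ring Λ] {X : Type} [Fintype X]
    {ι : Type} [Fintype ι] [DecidableEq ι] (T : X → Matrix ι ι Λ)
    (κ : Type) [Fintype κ] [DecidableEq κ] (R : Type u) [CommRing R] [IsDomain R]
    (w : List X)
    (hT : ∀ ev : MonoidAlgebra Λ (FreeMonoid X) →+*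
      Matrix (Fin w.length × κ) (Fin w.length × κ) (Polynomial R), IsUnit (ev.mapMatrix (pencil T)))
    (ev' : Λ →+* Matrix κ κ R) (hw : w ≠ []) :
    IsNilpotent (ev'.mapMatrix (w.map T).prod) := by
  classical
  -- the cycle
  have hN : 0 < w.length := List.length_pos_iff.mpr hw
  let nxt : Fin w.length → Fin w.length := fun k => ⟨(k.1 + 1) % w.length, Nat.mod_lt _ hN⟩
  let lab : Fin w.length → X := fun k => w[k.1]
  have hiter : ∀ i : ℕ, nxt^[i] ⟨0, hN⟩ = ⟨i % w.length, Nat.mod_lt _ hN⟩ := by
    intro i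
    induction i with
    | zero => simp
    | succ i ih =>
      rw [Function.iterate_succ_apply', ih]
      simp [nxt]
  let ev1 := cycEv (R := R) (κ := κ) ev' nxt lab
  have hu : IsUnit (ev1.mapMatrix (pencil T)) := by
    have h1 := hT
      ((Matrix.compRingEquiv (Fin w.length) κ (Polynomial R)).toRingHom.comp ev1)
    have h2 := h1.map (((Matrix.compRingEquiv (Fin w.length) κ
      (Polynomial R)).symm.toRingHom).mapMatrix (m := ι))
    have h3 : ((Matrix.compRingEquiv (Fin w.length) κ
      (Polynomial R)).symm.toRingHom).mapMatrix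
        (((Matrix.compRingEquiv (Fin w.length) κ (Polynomial R)).toRingHom.comp ev1).mapMatrix
          (pencil T)) = ev1.mapMatrix (pencil T) := by
      refine Matrix.ext fun a b => ?_
      simp only [RingHom.mapMatrix_apply, Matrix.map_apply, RingHom.comp_apply]
      exact (Matrix.compRingEquiv (Fin w.length) κ (Polynomial R)).symm_apply_apply _
    rw [h3] at h2
    exact h2
  obtain ⟨Q, hQ⟩ := hu.exists_right_inv
  have hL : ∀ a c, (ev1.mapMatrix (pencil T)) a c
      = (1 : Matrix ι ι (Matrix (Fin w.length) (Fin w.length) (Matrix κ κ (Polynomial R)))) a c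
        - ∑ j, fhom (Fin w.length) ev' (T j a c) * adjM nxt lab κ R j := by
    intro a c
    rw [RingHom.mapMatrix_apply, Matrix.map_apply, pencil, Matrix.sub_apply, map_sub,
      Matrix.sum_apply, map_sum]
    congr 1
    · rw [Matrix.one_apply, Matrix.one_apply]
      split_ifs <;> simp
    · apply Finset.sum_congr rfl
      intro j _
      rw [Matrix.map_apply]
      exact cycEv_single ev' nxt lab j _
  have hQ2 : ∀ a b k l, Q a b k l
      = (1 : Matrix ι ι (Matrix (Fin w.length) (Fin w.length) (Matrix κ κ (Polynomial R)))) a b k l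
        + ∑ c, (Polynomial.C : R →+* Polynomial R).mapMatrix (ev' (T (lab k) a c))
          * (Matrix.scalar κ (Polynomial.X) * Q c b (nxt k) l) := by
    intro a b k l
    have h1 := congrFun (congrFun (congrFun (congrFun hQ a) b) k) l
    rw [Matrix.mul_apply] at h1
    simp only [hL, sub_mul, Finset.sum_sub_distrib] at h1
    rw [← h1]
    rw [Matrix.sub_apply]
    have h2 : (∑ c, (1 : Matrix ι ι (Matrix (Fin w.length) (Fin w.length)
        (Matrix κ κ (Polynomial R)))) a c * Q c b) k l = Q a b k l := by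
      rw [← Matrix.mul_apply, one_mul]
    rw [h2]
    have h3 : (∑ c, (∑ j, fhom (Fin w.length) ev' (T j a c) * adjM nxt lab κ R j) * Q c b) k l
        = ∑ c, (Polynomial.C : R →+* Polynomial R).mapMatrix (ev' (T (lab k) a c))
          * (Matrix.scalar κ (Polynomial.X) * Q c b (nxt k) l) := by
      rw [Matrix.sum_apply]
      apply Finset.sum_congr rfl
      intro c _
      rw [Finset.sum_mul, Matrix.sum_apply, Finset.sum_eq_single (lab k)]
      · rw [mul_assoc, fhom_mul_apply, adjM_mul_apply, if_pos rfl]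
      · intro j _ hj
        rw [mul_assoc, fhom_mul_apply, adjM_mul_apply, if_neg (Ne.symm hj), mul_zero]
      · simp
    rw [h3, sub_add_cancel]
  -- coefficients
  let T' : X → Matrix ι ι (Matrix κ κ R) := fun j => ev'.mapMatrix (T j)
  have hcoef : ∀ (m : ℕ) (k : Fin w.length),
      (Matrix.of fun a b => (Q a b k (nxt^[m] k)).map (fun p => p.coeff m) :
        Matrix ι ι (Matrix κ κ R)) = orbProd T' nxt lab m k := by
    intro m
    induction m with
    | zero =>
      intro k
      ext a b c d
      simp only [Matrix.of_apply, Matrix.map_apply, Function.iterate_zero, id_eq, orbProd]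
      rw [hQ2, Matrix.add_apply, Polynomial.coeff_add, Matrix.sum_apply,
        Polynomial.finsetSum_coeff, Finset.sum_eq_zero, add_zero]
      · rw [Matrix.one_apply, Matrix.one_apply]
        by_cases hab : a = b
        · subst hab
          rw [if_pos rfl, if_pos rfl, Matrix.one_apply_eq, Matrix.one_apply, Matrix.one_apply]
          split_ifs <;> simp
        · rw [if_neg hab, if_neg hab]
          simp
      · intro e _
        rw [Matrix.mul_apply, Polynomial.finsetSum_coeff]
        apply Finset.sum_eq_zero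
        intro f _
        rw [Matrix.scalar_apply, Matrix.diagonal_mul, RingHom.mapMatrix_apply, Matrix.map_apply,
          Polynomial.coeff_C_mul, Polynomial.coeff_X_mul_zero, mul_zero]
    | succ m ih =>
      intro k
      rw [orbProd, ← ih (nxt k)]
      ext a b c d
      simp only [Matrix.of_apply, Matrix.map_apply, Function.iterate_succ_apply]
      rw [hQ2, Matrix.add_apply, Polynomial.coeff_add, Matrix.sum_apply,
        Polynomial.finsetSum_coeff, Matrix.mul_apply, Matrix.sum_apply]
      have h0 : ((1 : Matrix ι ι (Matrix (Fin w.length) (Fin w.length)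
          (Matrix κ κ (Polynomial R)))) a b k (nxt^[m] (nxt k)) c d).coeff (m + 1) = 0 := by
        rw [Matrix.one_apply]
        split_ifs
        · rw [Matrix.one_apply]
          split_ifs
          · rw [Matrix.one_apply]
            split_ifs <;> simp [Polynomial.coeff_one]
          · simp
        · simp
      rw [h0, zero_add]
      apply Finset.sum_congr rfl
      intro e _
      rw [Matrix.mul_apply, Matrix.mul_apply, Polynomial.finsetSum_coeff]
      apply Finset.sum_congr rfl
      intro f _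
      rw [Matrix.scalar_apply, Matrix.diagonal_mul, RingHom.mapMatrix_apply, Matrix.map_apply,
        Polynomial.coeff_C_mul, Polynomial.coeff_X_mul]
      simp [T']
  -- degree bound
  have hbound : ∃ m0 : ℕ, ∀ m, m0 ≤ m → ∀ a b k l c d, (Q a b k l c d).coeff m = 0 := by
    refine ⟨(∑ a, ∑ b, ∑ k, ∑ l, ∑ c, ∑ d, (Q a b k l c d).natDegree) + 1,
      fun m hm a b k l c d => ?_⟩
    apply Polynomial.coeff_eq_zero_of_natDegree_lt
    have h1 : (Q a b k l c d).natDegree ≤ ∑ d, (Q a b k l c d).natDegree :=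
      Finset.single_le_sum (f := fun d => (Q a b k l c d).natDegree) (fun _ _ => Nat.zero_le _)
        (Finset.mem_univ d)
    have h2 : _ ≤ ∑ c, ∑ d, (Q a b k l c d).natDegree :=
      Finset.single_le_sum (f := fun c => ∑ d, (Q a b k l c d).natDegree)
        (fun _ _ => Nat.zero_le _) (Finset.mem_univ c)
    have h3 : _ ≤ ∑ l, ∑ c, ∑ d, (Q a b k l c d).natDegree :=
      Finset.single_le_sum (f := fun l => ∑ c, ∑ d, (Q a b k l c d).natDegree)
        (fun _ _ => Nat.zero_le _) (Finset.mem_univ l)
    have h4 : _ ≤ ∑ k, ∑ l, ∑ c, ∑ d, (Q a b k l c d).natDegree :=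
      Finset.single_le_sum (f := fun k => ∑ l, ∑ c, ∑ d, (Q a b k l c d).natDegree)
        (fun _ _ => Nat.zero_le _) (Finset.mem_univ k)
    have h5 : _ ≤ ∑ b, ∑ k, ∑ l, ∑ c, ∑ d, (Q a b k l c d).natDegree :=
      Finset.single_le_sum (f := fun b => ∑ k, ∑ l, ∑ c, ∑ d, (Q a b k l c d).natDegree)
        (fun _ _ => Nat.zero_le _) (Finset.mem_univ b)
    have h6 : _ ≤ ∑ a, ∑ b, ∑ k, ∑ l, ∑ c, ∑ d, (Q a b k l c d).natDegree :=
      Finset.single_le_sum (f := fun a => ∑ b, ∑ k, ∑ l, ∑ c, ∑ d, (Q a b k l c d).natDegree)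
        (fun _ _ => Nat.zero_le _) (Finset.mem_univ a)
    omega
  obtain ⟨m0, hm0⟩ := hbound
  refine ⟨m0, ?_⟩
  have h1 : ev'.mapMatrix (w.map T).prod = orbProd T' nxt lab w.length ⟨0, hN⟩ := by
    rw [orbProd_list, map_list_prod, List.map_map]
    · rfl
    · intro i hi
      rw [hiter]
      simp [lab, Nat.mod_eq_of_lt hi]
  rw [h1, ← orbProd_mul _ _ _ _ _ (by rw [hiter]; simp), ← hcoef]
  ext a b c d
  rw [Matrix.of_apply, Matrix.map_apply, hm0]
  · rfl
  · exact Nat.le_mul_of_pos_left m0 hN


/-- all evaluations of size at most `N` are invertible -/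
def AU {Λ : Type u} [Ring Λ] (N : ℕ) {ι : Type} [Fintype ι] [DecidableEq ι] (L : Matrix ι ι Λ) :
    Prop :=
  ∀ (κ : Type) [Fintype κ] [DecidableEq κ], Fintype.card κ ≤ N →
    ∀ (R : Type u) [CommRing R] [IsDomain R] (ev : Λ →+* Matrix κ κ R), IsUnit (ev.mapMatrix L)

/-- all evaluations of size at most `N` are nilpotent -/
def AN {Λ : Type u} [Ring Λ] (N : ℕ) {ι : Type} [Fintype ι] [DecidableEq ι] (L : Matrix ι ι Λ) :
    Prop :=
  ∀ (κ : Type) [Fintype κ] [DecidableEq κ], Fintype.card κ ≤ N →
    ∀ (R : Type u) [CommRing R] [IsDomain R] (ev : Λ →+* Matrix κ κ R),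
      IsNilpotent (ev.mapMatrix L)

lemma AU.mono {Λ : Type u} [Ring Λ] {N M : ℕ} (h : N ≤ M) {ι : Type} [Fintype ι] [DecidableEq ι]
    {L : Matrix ι ι Λ} (hL : AU M L) : AU N L :=
  fun κ _ _ hκ R _ _ ev => hL κ (hκ.trans h) R ev

lemma AN.mono {Λ : Type u} [Ring Λ] {N M : ℕ} (h : N ≤ M) {ι : Type} [Fintype ι] [DecidableEq ι]
    {L : Matrix ι ι Λ} (hL : AN M L) : AN N L :=
  fun κ _ _ hκ R _ _ ev => hL κ (hκ.trans h) R ev

/-- the words vanish -/
theorem words_zero {Λ : Type u} [Ring Λ] {X : Type} [Fintype X] (hD : EmbDiv Λ) {ι : Type}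
    [Fintype ι] [DecidableEq ι] (T : X → Matrix ι ι Λ) (N : ℕ)
    (hnil : ∀ w : List X, w ≠ [] → w.length ≤ lv (Fintype.card ι) → AN N (w.map T).prod →
      IsNilpotent (w.map T).prod)
    (hT : AU (lv (Fintype.card ι) * N) (pencil T)) :
    ∀ w : List X, Fintype.card ι ≤ w.length → (w.map T).prod = 0 := by
  obtain ⟨D, _, e, he⟩ := hD
  apply levitzki_matrix_q e he T
  intro w hw hwl
  apply hnil w hw hwl
  intro κ _ _ hκ R _ _ ev'
  apply pencil_nil_q T κ R w _ ev' hw
  intro ev
  apply hT
  rw [Fintype.card_prod, Fintype.card_fin]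
  exact Nat.mul_le_mul hwl hκ

end Pool.Agent.Y814.FD
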