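import Pool.Agent.Y814.FD.QFil
import Pool.Agent.H193R3.Div

set_option autoImplicit false

/-!
The quantitative detection property passes from `Λ` to the free monoid algebra `Λ⟨X⟩`.
-/

namespace Pool.Agent.Y814.FD

open Pool.Agent.H193R3

universe u v w

open Matrix

variable {X : Type} [Fintype X]

/-- inverse of the pencil -/
lemma pencil_inv {Λ : Type u} [Ring Λ] {F : Fil Λ} {ι : Type} [Fintype ι] [DecidableEq ι]
    (T : X → Matrix ι ι Λ) (s e : ℕ)
    (hs : ∀ w : List X, s ≤ w.length → (w.map T).prod = 0) (hT : ∀ j, F.MD e (T j)) :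
    ∃ P : Matrix ι ι (MonoidAlgebra Λ (FreeMonoid X)), pencil T * P = 1 ∧ P * pencil T = 1 ∧
      (F.ext X).MD (s * (e + 1)) P := by
  have h1 : (linPart T) ^ s = 0 := by
    ext a b w
    have := congrFun (congrFun (linPart_pow_coeff T s w) a) b
    rw [Matrix.map_apply] at this
    rw [this]
    split_ifs with h
    · rw [hs _ (by rw [← h]; exact le_rfl)]; rfl
    · rfl
  have h2 : pencil T = 1 - linPart T := rfl
  refine ⟨∑ i ∈ Finset.range s, (linPart T) ^ i, ?_, ?_, ?_⟩
  · rw [h2, mul_neg_geom_sum, h1, sub_zero]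
  · rw [h2, geom_sum_mul_neg, h1, sub_zero]
  · have h3 : (F.ext X).MD (e + 1) (linPart T) := by
      intro a b
      rw [linPart, Matrix.sum_apply]
      apply Fil.sum
      intro j _
      rw [Matrix.map_apply]
      exact Fil.ext_single _ _ (by rw [FreeMonoid.length_of]; omega)
        (F.mono (Nat.le_succ e) _ (hT j a b))
    apply Fil.MD.sum
    intro i hi
    exact (h3.pow i).mono (Nat.mul_le_mul (Finset.mem_range.1 hi).le le_rfl)

/-- the linear case -/
theorem linear_q {Λ : Type u} [Ring Λ] {F : Fil Λ} (s e N0 E1 g0 : ℕ) (hUE : UE s e N0 E1 F)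
    (hUN : UN s (lv s * (E1 + e)) g0 F) (hD : EmbDiv Λ)
    (ι : Type) [Fintype ι] [DecidableEq ι] (hι : Fintype.card ι ≤ s)
    (L : Matrix ι ι (MonoidAlgebra Λ (FreeMonoid X))) (hdeg : ∀ a b, DegLE 1 (L a b))
    (hcoef : ∀ a b w, (L a b).coeff w ∈ F.D e) (hL : AU (max N0 (lv s * g0)) L) :
    ∃ L' : Matrix ι ι (MonoidAlgebra Λ (FreeMonoid X)),
      L * L' = 1 ∧ L' * L = 1 ∧ (F.ext X).MD (s * (E1 + e + 1) + E1) L' := by
  classical
  let B : Matrix ι ι Λ := L.map (fun f => f.coeff 1)
  let Lj : X → Matrix ι ι Λ := fun j => L.map (fun f => f.coeff (FreeMonoid.of j))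
  have hB : ∃ B' : Matrix ι ι Λ, B * B' = 1 ∧ B' * B = 1 ∧ F.MD E1 B' := by
    apply hUE ι hι B (fun a b => hcoef a b 1)
    intro κ _ _ hκ R _ _ ev'
    have h1 := hL κ (hκ.trans (le_max_left _ _)) R (ev'.comp (aug Λ X))
    have h2 : (ev'.comp (aug Λ X)).mapMatrix L = ev'.mapMatrix B := by
      ext1 a b
      simp only [RingHom.mapMatrix_apply, Matrix.map_apply, RingHom.comp_apply]
      congr 1
      conv_lhs => rw [linear_decomp (L a b) (hdeg a b)]
      rw [map_add, map_sum, aug_single_one,
        Finset.sum_eq_zero (fun j _ => aug_single_of j _), add_zero]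
      rfl
    rwa [h2] at h1
  obtain ⟨B', hBB', hB'B, hB'd⟩ := hB
  let T : X → Matrix ι ι Λ := fun j => -(B' * Lj j)
  have hTd : ∀ j, F.MD (E1 + e) (T j) := fun j =>
    Fil.MD.neg (hB'd.mul (fun a b => hcoef a b (FreeMonoid.of j)))
  let emb : Matrix ι ι Λ →+* Matrix ι ι (MonoidAlgebra Λ (FreeMonoid X)) :=
    (MonoidAlgebra.singleOneRingHom (R := Λ) (M := FreeMonoid X)).mapMatrix
  have hdecomp : L = emb B + ∑ j, (Lj j).map (MonoidAlgebra.single (FreeMonoid.of j)) := by
    ext1 a b
    rw [Matrix.add_apply, Matrix.sum_apply]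
    exact linear_decomp (L a b) (hdeg a b)
  have hmul : ∀ (M N : Matrix ι ι Λ) (j : X),
      emb M * N.map (MonoidAlgebra.single (FreeMonoid.of j))
        = (M * N).map (MonoidAlgebra.single (FreeMonoid.of j)) := by
    intro M N j
    ext1 a b
    rw [Matrix.mul_apply, Matrix.map_apply, Matrix.mul_apply]
    have : ∀ t : Λ, MonoidAlgebra.single (FreeMonoid.of j) t
        = MonoidAlgebra.singleAddHom (FreeMonoid.of j) t := fun t => rfl
    rw [this, map_sum]
    apply Finset.sum_congr rfl
    intro c _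
    show MonoidAlgebra.single 1 (M a c) * MonoidAlgebra.single (FreeMonoid.of j) (N c b) = _
    rw [MonoidAlgebra.single_mul_single, one_mul]
    rfl
  have hpen : pencil T = emb B' * L := by
    rw [hdecomp, mul_add, ← map_mul, hB'B, map_one, Finset.mul_sum, pencil, sub_eq_add_neg]
    congr 1
    rw [← Finset.sum_neg_distrib]
    apply Finset.sum_congr rfl
    intro j _
    rw [hmul]
    ext1 a b
    rw [Matrix.neg_apply, Matrix.map_apply, Matrix.map_apply]
    show -(MonoidAlgebra.singleAddHom (FreeMonoid.of j) ((-(B' * Lj j)) a b))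
      = MonoidAlgebra.singleAddHom (FreeMonoid.of j) ((B' * Lj j) a b)
    rw [Matrix.neg_apply, map_neg, neg_neg]
  have hLpen : L = emb B * pencil T := by
    rw [hpen, ← mul_assoc, ← map_mul, hBB', map_one, one_mul]
  have hunitB' : IsUnit B' := isUnit_iff_exists.mpr ⟨B, hB'B, hBB'⟩
  have hT : AU (lv s * g0) (pencil T) := by
    intro κ _ _ hκ R _ _ ev
    rw [hpen, map_mul]
    exact ((hunitB'.map emb).map _).mul (hL κ (hκ.trans (le_max_right _ _)) R ev)
  have hwords := words_zero hD T g0 (by
    intro w _ hwl hAN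
    apply hUN ι hι _ _ hAN
    apply (Fil.MD.prod T hTd w).mono
    exact Nat.mul_le_mul (hwl.trans (lv_mono hι)) le_rfl) (hT.mono (Nat.mul_le_mul (lv_mono hι) le_rfl))
  obtain ⟨P, hP1, hP2, hPd⟩ := pencil_inv (F := F) T s (E1 + e)
    (fun w hw => hwords w (hι.trans hw)) hTd
  refine ⟨P * emb B', ?_, ?_, ?_⟩
  · rw [hLpen]
    calc emb B * pencil T * (P * emb B') = emb B * (pencil T * P) * emb B' := by
          simp only [mul_assoc]
      _ = 1 := by rw [hP1, mul_one, ← map_mul, hBB', map_one]
  · rw [hLpen]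
    calc P * emb B' * (emb B * pencil T) = P * (emb B' * emb B) * pencil T := by
          simp only [mul_assoc]
      _ = 1 := by rw [← map_mul, hB'B, map_one, mul_one, hP2]
  · apply hPd.mul
    intro a b
    exact Fil.ext_single 1 _ (by simp) (hB'd a b)

theorem deg_q {Λ : Type u} [Ring Λ] {F : Fil Λ} (hD : EmbDiv Λ) (d : ℕ) : ∀ (s S e N0 E1 g0 : ℕ),
    s * (1 + Fintype.card X) ^ d ≤ S → UE S e N0 E1 F → UN S (lv S * (E1 + e)) g0 F →
    ∀ (ι : Type) [Fintype ι] [DecidableEq ι], Fintype.card ι ≤ s →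
      ∀ L : Matrix ι ι (MonoidAlgebra Λ (FreeMonoid X)), (∀ a b, DegLE (d + 1) (L a b)) →
        (∀ a b w, (L a b).coeff w ∈ F.D e) → AU (max N0 (lv S * g0)) L →
        ∃ L' : Matrix ι ι (MonoidAlgebra Λ (FreeMonoid X)),
          L * L' = 1 ∧ L' * L = 1 ∧ (F.ext X).MD (S * (E1 + e + 1) + E1) L' := by
  classical
  induction d with
  | zero =>
    intro s S e N0 E1 g0 hS hUE hUN ι _ _ hι L h1 hcoef h2
    rw [pow_zero, Nat.mul_one] at hS
    exact linear_q S e N0 E1 g0 hUE hUN hD ι (hι.trans hS) L h1 hcoef h2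
  | succ d ih =>
    intro s S e N0 E1 g0 hS hUE hUN ι _ _ hι L h1 hcoef h2
    let A : Matrix ι ι (MonoidAlgebra Λ (FreeMonoid X)) :=
      L.map (fun f => MonoidAlgebra.single 1 (f.coeff 1))
    let C : Matrix ι (X × ι) (MonoidAlgebra Λ (FreeMonoid X)) :=
      Matrix.of fun a jb => if a = jb.2 then MonoidAlgebra.single (FreeMonoid.of jb.1) 1 else 0
    let E' : Matrix (X × ι) ι (MonoidAlgebra Λ (FreeMonoid X)) :=
      Matrix.of fun ja b => strip ja.1 (L ja.2 b)
    have hdec : A + C * E' = L := by
      ext1 a b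
      rw [Matrix.add_apply, Matrix.mul_apply]
      conv_rhs => rw [strip_decomp (L a b)]
      congr 1
      rw [Fintype.sum_prod_type]
      apply Finset.sum_congr rfl
      intro j _
      rw [Finset.sum_eq_single a]
      · simp [C, E']
      · intro c _ hc
        simp [C, Ne.symm hc]
      · simp
    have hu : ∀ {B : Type u} [Ring B] (f : MonoidAlgebra Λ (FreeMonoid X) →+* B),
        IsUnit (f.mapMatrix (fromBlocks A (-C) E' 1)) ↔ IsUnit (f.mapMatrix L) := by
      intro B _ f
      have h3 : f.mapMatrix (fromBlocks A (-C) E' 1)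
          = fromBlocks (A.map f) (-(C.map f)) (E'.map f) 1 := by
        rw [RingHom.mapMatrix_apply, Matrix.fromBlocks_map]
        congr 1
        · ext1 a b; simp
        · ext1 a b
          rw [Matrix.map_apply, Matrix.one_apply, Matrix.one_apply]
          split_ifs <;> simp
      rw [h3, isUnit_fromBlocks_schur]
      have h4 : A.map f + C.map f * E'.map f = f.mapMatrix L := by
        rw [← hdec, RingHom.mapMatrix_apply]
        ext1 a b
        simp only [Matrix.add_apply, Matrix.map_apply, Matrix.mul_apply, map_add, map_sum, map_mul]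
      rw [h4]
    obtain ⟨W, hW1, hW2, hWd⟩ := ih (s + Fintype.card X * s) S e N0 E1 g0 (by
        refine le_trans (le_of_eq ?_) hS
        ring) hUE hUN (ι ⊕ X × ι) (by
        rw [Fintype.card_sum, Fintype.card_prod]
        exact Nat.add_le_add hι (Nat.mul_le_mul le_rfl hι)) (fromBlocks A (-C) E' 1) (by
      intro a b
      rcases a with a | a <;> rcases b with b | b
      · rw [fromBlocks_apply₁₁]
        intro w hw
        simp only [A, Matrix.map_apply, MonoidAlgebra.coeff_single]
        rw [Finsupp.single_eq_of_ne]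
        rintro rfl
        simp at hw
      · rw [fromBlocks_apply₁₂, Matrix.neg_apply]
        intro w hw
        simp only [C, Matrix.of_apply]
        split_ifs
        · rw [MonoidAlgebra.coeff_neg, Finsupp.neg_apply, MonoidAlgebra.coeff_single,
            Finsupp.single_eq_of_ne, neg_zero]
          rintro rfl
          simp at hw
        · simp
      · rw [fromBlocks_apply₂₁]
        intro w hw
        simp only [E', Matrix.of_apply]
        rw [coeff_strip]
        apply h1
        rw [FreeMonoid.length_mul, FreeMonoid.length_of]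
        omega
      · rw [fromBlocks_apply₂₂]
        intro w hw
        rw [Matrix.one_apply]
        split_ifs
        · rw [MonoidAlgebra.one_def, MonoidAlgebra.coeff_single, Finsupp.single_eq_of_ne]
          rintro rfl
          simp at hw
        · simp) (by
      intro a b w
      rcases a with a | a <;> rcases b with b | b
      · rw [fromBlocks_apply₁₁]
        simp only [A, Matrix.map_apply, MonoidAlgebra.coeff_single]
        rw [Finsupp.single_apply]
        split_ifs
        · exact hcoef a b 1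
        · exact F.zero _
      · rw [fromBlocks_apply₁₂, Matrix.neg_apply, MonoidAlgebra.coeff_neg, Finsupp.neg_apply]
        apply F.neg
        simp only [C, Matrix.of_apply]
        split_ifs
        · rw [MonoidAlgebra.coeff_single, Finsupp.single_apply]
          split_ifs
          · exact F.one _
          · exact F.zero _
        · exact F.zero _
      · rw [fromBlocks_apply₂₁]
        simp only [E', Matrix.of_apply]
        rw [coeff_strip]
        exact hcoef _ _ _
      · rw [fromBlocks_apply₂₂]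
        exact ((Fil.MD.one (F := F.ext X) (a := e)) a b).2 w) (by
      intro κ _ _ hκ R _ _ ev
      rw [hu ev]
      exact h2 κ hκ R ev)
    -- the upper left block
    have hWb : W = fromBlocks W.toBlocks₁₁ W.toBlocks₁₂ W.toBlocks₂₁ W.toBlocks₂₂ :=
      (fromBlocks_toBlocks W).symm
    rw [hWb, fromBlocks_multiply, ← fromBlocks_one] at hW1 hW2
    have a1 := congrArg Matrix.toBlocks₁₁ hW1
    have a2 := congrArg Matrix.toBlocks₂₁ hW1
    have b1 := congrArg Matrix.toBlocks₁₁ hW2
    have b2 := congrArg Matrix.toBlocks₁₂ hW2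
    simp only [toBlocks_fromBlocks₁₁, toBlocks_fromBlocks₂₁, toBlocks_fromBlocks₁₂,
      Matrix.one_mul, Matrix.mul_one] at a1 a2 b1 b2
    refine ⟨W.toBlocks₁₁, ?_, ?_, fun i j => hWd (Sum.inl i) (Sum.inl j)⟩
    · have a3 : W.toBlocks₂₁ = -(E' * W.toBlocks₁₁) := by
        rw [eq_neg_iff_add_eq_zero, add_comm]; exact a2
      rw [a3] at a1
      rw [← hdec, Matrix.add_mul, ← a1, Matrix.neg_mul, Matrix.mul_neg, neg_neg, Matrix.mul_assoc]
    · have b3 : W.toBlocks₁₂ = W.toBlocks₁₁ * C := by
        have : W.toBlocks₁₁ * -C + W.toBlocks₁₂ = 0 := b2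
        rw [Matrix.mul_neg, neg_add_eq_zero] at this
        exact this.symm
      rw [b3] at b1
      rw [← hdec, Matrix.mul_add, ← b1, Matrix.mul_assoc]

/-- the detection property for the free monoid algebra -/
theorem step_q {Λ : Type u} [Ring Λ] {F : Fil Λ} (hD : EmbDiv Λ) (s e N0 E1 g0 : ℕ)
    (hUE : UE (s * (1 + Fintype.card X) ^ e) e N0 E1 F)
    (hUN : UN (s * (1 + Fintype.card X) ^ e) (lv (s * (1 + Fintype.card X) ^ e) * (E1 + e)) g0 F) :
    UE s e (max N0 (lv (s * (1 + Fintype.card X) ^ e) * g0))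
      (s * (1 + Fintype.card X) ^ e * (E1 + e + 1) + E1) (F.ext X) := by
  intro ι _ _ hι L hLd hL
  exact deg_q hD e s _ e N0 E1 g0 le_rfl hUE hUN ι hι L
    (fun a b => (hLd a b).1.mono (Nat.le_succ e)) (fun a b w => (hLd a b).2 w) hL

/-- the detection property for the free algebra over a commutative domain -/
theorem one_q (Λ : Type u) [CommRing Λ] [IsDomain Λ] (s e : ℕ) :
    UE s e (lv (s * (1 + Fintype.card X) ^ e)) (s * (1 + Fintype.card X) ^ e)
      ((Fil.triv Λ).ext X) := by
  intro ι _ _ hι L hLd hL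
  have hlv : 1 ≤ lv (s * (1 + Fintype.card X) ^ e) := lv_pos _
  obtain ⟨L', h1, h2, h3⟩ := deg_q (embDiv_commDomain Λ) e s (s * (1 + Fintype.card X) ^ e) 0 1 0 1
    le_rfl (UE.of_commDomain Λ _) (UN.of_commDomain Λ _ _) ι hι L
    (fun a b => (hLd a b).1.mono (Nat.le_succ e)) (fun _ _ _ => trivial) (by
      rw [Nat.mul_one, max_eq_right hlv]
      exact hL)
  refine ⟨L', h1, h2, h3.mono ?_⟩
  omega

omit [Fintype X] in
/-- nilpotency from invertibility -/
theorem nil_q (Λ : Type u) [Ring Λ] (s e N E : ℕ)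
    (h : UE s e N E ((Fil.triv (Polynomial Λ)).ext X)) :
    UN s e N ((Fil.triv Λ).ext X) := by
  intro ι _ _ hι T hTd hT
  let emb : MonoidAlgebra Λ (FreeMonoid X) →+* MonoidAlgebra (Polynomial Λ) (FreeMonoid X) :=
    MonoidAlgebra.mapRingHom (FreeMonoid X) (Polynomial.C : Λ →+* Polynomial Λ)
  let t : MonoidAlgebra (Polynomial Λ) (FreeMonoid X) := MonoidAlgebra.single 1 Polynomial.X
  have htc : ∀ f, Commute t f := by
    intro f
    apply MonoidAlgebra.single_commute
    · intro m; exact Commute.one_left m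
    · intro r; exact Polynomial.X_mul
  let L : Matrix ι ι (MonoidAlgebra (Polynomial Λ) (FreeMonoid X)) :=
    1 - T.map (fun a => t * emb a)
  have hLd : ((Fil.triv (Polynomial Λ)).ext X).MD e L := by
    have h1 : ((Fil.triv (Polynomial Λ)).ext X).MD e (T.map (fun a => t * emb a)) := by
      intro a b
      rw [Matrix.map_apply]
      have h2 : emb (T a b) ∈ ((Fil.triv (Polynomial Λ)).ext X).D e := by
        refine ⟨fun w hw => ?_, fun _ => trivial⟩
        have h3 := (hTd a b).1 w hw
        show ((MonoidAlgebra.mapRingHom (FreeMonoid X) (Polynomial.C : Λ →+* Polynomial Λ))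
          (T a b)).coeff w = 0
        rw [MonoidAlgebra.coeff_mapRingHom, h3, map_zero]
      have h4 : t ∈ ((Fil.triv (Polynomial Λ)).ext X).D 0 :=
        Fil.ext_single 1 _ (by simp) trivial
      have h5 := ((Fil.triv (Polynomial Λ)).ext X).mul h4 h2
      rwa [Nat.zero_add] at h5
    have := (Fil.MD.one (F := (Fil.triv (Polynomial Λ)).ext X) (ι := ι) (a := e)).add h1.neg
    rw [← sub_eq_add_neg] at this
    exact this
  have hL : IsUnit L := by
    obtain ⟨L', h1, h2, _⟩ := h ι hι L hLd (by
      intro κ _ _ hκ R _ _ ev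
      have h1 : ev.mapMatrix L
          = 1 - (Matrix.scalar ι (ev t)) * (ev.comp emb).mapMatrix T := by
        rw [map_sub, map_one]
        congr 1
        ext1 a b
        rw [Matrix.scalar_apply, Matrix.diagonal_mul]
        simp
      rw [h1]
      apply IsNilpotent.isUnit_one_sub
      apply Commute.isNilpotent_mul_left
      · show _ * _ = _ * _
        ext1 a b
        rw [Matrix.scalar_apply, Matrix.diagonal_mul, Matrix.mul_diagonal]
        simp only [RingHom.mapMatrix_apply, Matrix.map_apply, RingHom.comp_apply]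
        rw [← map_mul, ← map_mul, (htc (emb (T a b))).eq]
      · exact hT κ hκ R (ev.comp emb))
    exact isUnit_iff_exists.mpr ⟨L', h1, h2⟩
  have h2 := hL.map ((swapHom Λ X).mapMatrix (m := ι))
  apply nilpotent_of_isUnit_poly T
  have h3 : (swapHom Λ X).mapMatrix L
      = 1 - T.map (fun a => (Polynomial.X : Polynomial (MonoidAlgebra Λ (FreeMonoid X)))
        * Polynomial.C a) := by
    rw [map_sub, map_one]
    congr 1
    ext1 a b
    simp only [RingHom.mapMatrix_apply, Matrix.map_apply]
    rw [map_mul, swapHom_t, swapHom_map]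
  rwa [h3] at h2

end Pool.Agent.Y814.FD
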