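import Pool.Agent.Y814.FD.QJac

set_option autoImplicit false

/-!
Surjectivity with a bound on the degrees of the preimages of the generators.
-/

namespace Pool.Agent.Y814.FD

open Pool.Agent.H193R3

universe u v w

open scoped TensorProduct
open MulOpposite Polynomial

variable {K : Type u} [Field K] {n : ℕ}

lemma sigA_deg {a : ℕ} {x : FA K n} (hx : x ∈ degA K n a) (k : ℕ) (hk : a < k) :
    (sigA K n x).coeff k = 0 := by
  rw [FA_sum x, map_sum, finsetSum_coeff]
  apply Finset.sum_eq_zero
  intro w hw
  rw [map_smul, coeff_smul, sigA_mon, coeff_C_mul_X_pow, if_neg, smul_zero]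
  intro h
  exact (Finsupp.mem_support_iff.mp hw) (mem_degA.1 hx w (by omega))

lemma pencil_mem {s : ℕ} (T : Fin n → Matrix (Fin s) (Fin s) K) (a b : Fin s) :
    (pencil T a b : FA K n) ∈ degA K n 1 := by
  rw [pencil, Matrix.sub_apply, Matrix.sum_apply]
  apply Submodule.sub_mem
  · rw [Matrix.one_apply]
    split_ifs
    · exact one_mem_degA
    · exact Submodule.zero_mem _
  · apply Submodule.sum_mem
    intro k _
    rw [Matrix.map_apply, single_eq, mon_of]
    exact Submodule.smul_mem _ _ (gx_mem_degA k)

/-- the number of words of length at most `D` -/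
noncomputable def cnt (n D : ℕ) : ℕ := Nat.card {w : FreeMonoid (Fin n) | w.length ≤ D}

lemma finrank_degA (K : Type u) [Field K] (n D : ℕ) :
    Module.finrank K (degA K n D) = cnt n D := by
  have hfin : Finite {w : FreeMonoid (Fin n) | w.length ≤ D} :=
    (List.finite_length_le (Fin n) D).to_subtype
  have := Fintype.ofFinite {w : FreeMonoid (Fin n) | w.length ≤ D}
  rw [degA, (MonoidAlgebra.supportedEquivFinsupp (R := K) (S := K)
      {w : FreeMonoid (Fin n) | w.length ≤ D}).finrank_eq, Module.finrank_finsupp_self, cnt,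
    Nat.card_eq_fintype_card]

lemma cnt_le (n D : ℕ) : cnt n D ≤ ∑ k ∈ Finset.range (D + 1), n ^ k := by
  classical
  let f : {w : FreeMonoid (Fin n) | w.length ≤ D} → Σ k : Fin (D + 1), List.Vector (Fin n) k :=
    fun w => ⟨⟨w.1.length, Nat.lt_succ_of_le w.2⟩, ⟨w.1.toList, rfl⟩⟩
  have hf : Function.Injective f := by
    intro v w h
    have h1 : (f v).2.1 = (f w).2.1 := by rw [h]
    exact Subtype.ext (FreeMonoid.toList.injective h1)
  have h1 := Nat.card_le_card_of_injective f hf
  rw [cnt]
  refine h1.trans (le_of_eq ?_)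
  rw [Nat.card_eq_fintype_card, Fintype.card_sigma, Finset.sum_range]
  apply Finset.sum_congr rfl
  intro k _
  rw [card_vector, Fintype.card_fin]

theorem surj_q (φ : FA K n →ₐ[K] FA K n) (N : Matrix (Fin n) (Fin n) (AA K n))
    (hφ0 : ∀ i, eps K n (φ (gx i)) = 0) (hJN : Jac φ * N = 1) (hNJ : N * Jac φ = 1) (D s0 : ℕ)
    (hND : ∀ i j, N i j ∈ degAA K n D) (hs0 : Module.finrank K (degA K n (D + 1)) ≤ s0)
    (happ : App (s0 * lv s0 + 1) φ) :
    ∀ i, ∃ g ∈ degA K n s0, φ g = gx i := by
  classical
  let W : Submodule K (FA K n) := WW N D (D + 1)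
  have hWfin : FiniteDimensional K W :=
    Submodule.finiteDimensional_of_le (S₂ := degA K n (D + 1)) inf_le_left
  have hgx : ∀ i, (gx i : FA K n) ∈ W := by
    intro i
    show gx i ∈ WW N D (D + 1)
    rw [mem_WW]
    constructor
    · rw [mem_degA]
      intro w hw
      rw [gx, MonoidAlgebra.coeff_single, Finsupp.single_eq_of_ne]
      rintro rfl
      rw [FreeMonoid.length_of] at hw
      omega
    · intro j
      rw [df_apply, Finset.sum_eq_single i]
      · rw [dd_gx, if_pos rfl, one_mul]; exact hND i j
      · intro l _ hl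
        rw [dd_gx, if_neg (Ne.symm hl), zero_mul]
      · simp
  have hstab : ∀ k, ∀ h ∈ W, lam N k h ∈ W := fun k h hh =>
    WW_stable φ N hφ0 hNJ hJN (by omega) hh k
  -- basis
  let b := Module.finBasis K W
  let s := Module.finrank K W
  let wv : Fin s → FA K n := fun a => (b a : FA K n)
  let T : Fin n → Matrix (Fin s) (Fin s) K := fun k =>
    Matrix.of fun a c => b.repr ⟨lam N k (wv a), hstab k _ (b a).2⟩ c
  have hT : ∀ k a, lam N k (wv a) = ∑ c, T k a c • wv c := by
    intro k a
    have h1 := b.sum_repr ⟨lam N k (wv a), hstab k _ (b a).2⟩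
    have h2 := congrArg Subtype.val h1
    simp only [Submodule.coe_sum, Submodule.coe_smul] at h2
    exact h2.symm
  -- dual functionals
  have hdual : ∀ c, ∃ ℓ : FA K n →ₗ[K] K, ∀ a, ℓ (wv a) = if a = c then 1 else 0 := by
    intro c
    obtain ⟨g, hg⟩ := LinearMap.exists_extend (b.coord c)
    refine ⟨g, fun a => ?_⟩
    have h1 := congrArg (fun f : W →ₗ[K] K => f (b a)) hg
    simp only [LinearMap.comp_apply, Submodule.subtype_apply] at h1
    rw [show g (wv a) = g ((b a : W) : FA K n) from rfl, h1, Module.Basis.coord_apply,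
      Module.Basis.repr_self, Finsupp.single_apply]
  choose ℓ hℓ using hdual
  let f : Fin n → FA K n := fun k => φ (gx k)
  -- expansion of the basis
  have hexp : ∀ a, wv a = eps K n (wv a) • (1 : FA K n)
      + ∑ k, f k * ∑ c, T k a c • wv c := by
    intro a
    conv_lhs => rw [lam_expand φ N hφ0 hNJ (wv a)]
    congr 1
    apply Finset.sum_congr rfl
    intro k _
    rw [hT]
  -- the matrix P(f)
  let Pf : Matrix (Fin s) (Fin s) (FA K n) := 1 - ∑ k, (T k).map (fun t => t • f k)
  let al : Fin n → Matrix (Fin s) (Fin s) (FA K n) := fun j =>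
    Matrix.of fun c b' => piR (ℓ b') (df N j (wv c))
  have hPf : ∀ a c, Pf a c = (1 : Matrix (Fin s) (Fin s) (FA K n)) a c
      - ∑ k, T k a c • f k := by
    intro a c
    simp [Pf, Matrix.sum_apply]
  have hC2 : ∀ j a, df N j (wv a) = ∑ k, ∑ c, T k a c • (ll K n (f k) * df N j (wv c))
      + ∑ c, T j a c • rr K n (wv c) := by
    intro j a
    conv_lhs => rw [hexp a]
    rw [map_add, map_smul, df_one, smul_zero, zero_add, map_sum]
    have h1 : ∀ k, df N j (f k * ∑ c, T k a c • wv c)
        = ∑ c, T k a c • (ll K n (f k) * df N j (wv c))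
          + if k = j then ∑ c, T k a c • rr K n (wv c) else 0 := by
      intro k
      rw [df_mul, df_f φ N hJN]
      congr 1
      · simp only [map_sum, map_smul, Finset.mul_sum, mul_smul_comm]
      · split_ifs
        · rw [mul_one]; simp only [map_sum, map_smul]
        · rw [mul_zero]
    simp only [h1, Finset.sum_add_distrib]
    congr 1
    simp
  have hPal : ∀ j, Pf * al j = (T j).map (algebraMap K (FA K n)) := by
    intro j
    refine Matrix.ext fun a b' => ?_
    rw [Matrix.mul_apply, Matrix.map_apply]
    have h1 := congrArg (piR (ℓ b')) (hC2 j a)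
    rw [map_add, map_sum, map_sum] at h1
    simp only [map_sum, map_smul, piR_ll_mul, piR_rr, hℓ] at h1
    simp only [hPf, sub_mul, Finset.sum_sub_distrib]
    have h2 : ∑ c, (1 : Matrix (Fin s) (Fin s) (FA K n)) a c * al j c b' = al j a b' := by
      simp [Matrix.one_apply]
    rw [h2]
    have h3 : al j a b' = piR (ℓ b') (df N j (wv a)) := rfl
    rw [h3, h1]
    have h4 : ∑ c, (∑ k, T k a c • f k) * al j c b'
        = ∑ k, ∑ c, T k a c • (f k * piR (ℓ b') (df N j (wv c))) := by
      rw [Finset.sum_comm]
      apply Finset.sum_congr rfl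
      intro c _
      rw [Finset.sum_mul]
      apply Finset.sum_congr rfl
      intro k _
      rw [smul_mul_assoc]
      rfl
    rw [h4, add_sub_cancel_left]
    simp [Algebra.algebraMap_eq_smul_one]
  let Th : Matrix (Fin s) (Fin s) (FA K n) := 1 + ∑ j, (al j).map (fun t => t * f j)
  have hPTh : Pf * Th = 1 := by
    have h1 : ∀ j, Pf * (al j).map (fun t => t * f j) = (T j).map (fun t => t • f j) := by
      intro j
      refine Matrix.ext fun a b' => ?_
      have h2 := congrFun (congrFun (hPal j) a) b'
      rw [Matrix.mul_apply, Matrix.map_apply] at h2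
      rw [Matrix.mul_apply, Matrix.map_apply]
      simp only [Matrix.map_apply, ← mul_assoc]
      rw [← Finset.sum_mul, h2, Algebra.algebraMap_eq_smul_one, smul_mul_assoc, one_mul]
    show Pf * (1 + ∑ j, (al j).map (fun t => t * f j)) = 1
    rw [mul_add, mul_one, Finset.mul_sum, Finset.sum_congr rfl (fun j _ => h1 j)]
    show (1 - ∑ k, (T k).map (fun t => t • f k)) + _ = 1
    rw [sub_add_cancel]
  -- all evaluations of the pencil are invertible
  have hsl : s ≤ s0 := by
    apply le_trans _ hs0
    exact Submodule.finrank_mono inf_le_left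
  have hall : AU (lv (Fintype.card (Fin s)) * 1) (pencil T) := by
    intro κ _ _ hκ R _ _ ev
    set m := s0 * lv s0 + 1 with hm
    obtain ⟨p, α, hα⟩ := happ
    let p' : Fin n → K := fun j => -p j
    have hpp : ∀ j, p j + p' j = 0 := fun j => by simp [p']
    have hpp' : ∀ j, p' j + p j = 0 := fun j => by simp [p']
    let q : Fin n → K := fun j => eps K n (tr p (α (gx j)))
    let q' : Fin n → K := fun j => -q j
    have hqq' : ∀ j, q' j + q j = 0 := fun j => by simp [q']
    have hα1 : (eps K n).comp (tr q)
        = ((eps K n).comp (tr p)).comp (α : FA K n →ₐ[K] FA K n) := by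
      apply FA_hom_ext
      intro i
      show eps K n (tr q (gx i)) = eps K n (tr p (α (gx i)))
      rw [tr_gx, map_add, eps_gx, map_smul, map_one, zero_add, smul_eq_mul, mul_one]
    let β : FA K n →ₐ[K] FA K n :=
      ((tr q).comp (α.symm : FA K n →ₐ[K] FA K n)).comp (tr p')
    have hβ : ∀ i, OrdGE 1 (β (gx i)) := by
      intro i
      rw [ordGE_one_iff]
      have h1 := congrArg (fun g : FA K n →ₐ[K] K => g (α.symm (tr p' (gx i)))) hα1
      simp only [AlgHom.comp_apply] at h1
      have h2 : (α : FA K n →ₐ[K] FA K n) (α.symm (tr p' (gx i))) = tr p' (gx i) :=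
        α.apply_symm_apply _
      rw [h2, tr_tr p p' hpp, eps_gx] at h1
      exact h1
    have h0 : ((ev.comp (tr q').toRingHom).mapMatrix ((tr q).toRingHom.mapMatrix (pencil T)))
        = ev.mapMatrix (pencil T) := by
      refine Matrix.ext fun a b => ?_
      show ev (tr q' (tr q (pencil T a b))) = ev (pencil T a b)
      rw [tr_tr q' q hqq']
    rw [← h0]
    apply closure_unit (sigA K n).toRingHom sigA_eval (ev.comp (tr q').toRingHom)
      ((tr q).toRingHom.mapMatrix (pencil T))
      (((tr q).comp (α.symm : FA K n →ₐ[K] FA K n)).toRingHom.mapMatrix Pf)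
      (((tr q).comp (α.symm : FA K n →ₐ[K] FA K n)).toRingHom.mapMatrix Th) 1 m
      (fun a b k hk => sigA_deg (tr_mem q (pencil_mem T a b)) k hk) (by
        rw [Fintype.card_fin] at hκ ⊢
        rw [hm, Nat.mul_one]
        rw [Nat.mul_one] at hκ
        exact Nat.lt_succ_of_le (Nat.mul_le_mul hsl (hκ.trans (lv_mono hsl))))
      (Or.inl (by rw [← map_mul, hPTh, map_one]))
    intro a c k hk
    have h1 : (tr q).toRingHom.mapMatrix (pencil T) a c
        - ((tr q).comp (α.symm : FA K n →ₐ[K] FA K n)).toRingHom.mapMatrix Pf a c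
        = ∑ k, T k a c • β (tr p (f k - α (gx k))) := by
      have h2 : (tr q).toRingHom.mapMatrix (pencil T) a c
          = (1 : Matrix (Fin s) (Fin s) (FA K n)) a c - ∑ k, T k a c • tr q (gx k) := by
        show tr q (pencil T a c) = _
        rw [pencil, Matrix.sub_apply, Matrix.sum_apply, map_sub, map_sum]
        congr 1
        · rw [Matrix.one_apply]
          split_ifs <;> simp
        · apply Finset.sum_congr rfl
          intro k _
          rw [Matrix.map_apply, single_eq, mon_of, map_smul]
      have h3 : ((tr q).comp (α.symm : FA K n →ₐ[K] FA K n)).toRingHom.mapMatrix Pf a c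
          = (1 : Matrix (Fin s) (Fin s) (FA K n)) a c
            - ∑ k, T k a c • tr q (α.symm (f k)) := by
        show ((tr q).comp (α.symm : FA K n →ₐ[K] FA K n)) (Pf a c) = _
        rw [hPf, map_sub, map_sum]
        congr 1
        · rw [Matrix.one_apply]
          split_ifs <;> simp
        · apply Finset.sum_congr rfl
          intro k _
          rw [map_smul]
          rfl
      rw [h2, h3, sub_sub_sub_cancel_left, ← Finset.sum_sub_distrib]
      apply Finset.sum_congr rfl
      intro k _
      rw [← smul_sub]
      congr 1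
      show _ = tr q (α.symm (tr p' (tr p (f k - α (gx k)))))
      rw [tr_tr p' p hpp', map_sub, α.symm_apply_apply, map_sub]
    rw [h1]
    have h4 : OrdGE m (∑ k, T k a c • β (tr p (f k - α (gx k)))) := by
      have : ∀ t : Finset (Fin n),
          OrdGE m (∑ k ∈ t, T k a c • β (tr p (f k - α (gx k)))) := by
        intro t
        induction t using Finset.induction_on with
        | empty => exact OrdGE.zero
        | insert v t hv ih =>
          rw [Finset.sum_insert hv]
          exact (((hα v).map _ hβ).smul _).add ih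
      exact this _
    exact sigA_coeff _ m h4 k hk
  have hnil := words_zero (embDiv_commDomain K) T 1 (fun w _ _ hAN =>
    UN.of_commDomain K s 0 (Fin s) (by rw [Fintype.card_fin]) _ (fun _ _ => trivial) hAN) hall
  -- conclusion
  have key : ∀ m : ℕ, ∀ v : Fin s → K,
      (∀ w : List (Fin n), w.length = m → Matrix.vecMul v (w.map T).prod = 0) →
      ∃ g ∈ degA K n m, φ g = ∑ a, v a • wv a := by
    intro m
    induction m with
    | zero =>
      intro v hv
      have h1 := hv [] rfl
      rw [List.map_nil, List.prod_nil, Matrix.vecMul_one] at h1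
      rw [h1]
      exact ⟨0, Submodule.zero_mem _, by simp⟩
    | succ m ih =>
      intro v hv
      have h0 : ∀ k, ∃ g ∈ degA K n m, φ g = lam N k (∑ a, v a • wv a) := by
        intro k
        have h1 : lam N k (∑ a, v a • wv a) = ∑ c, (Matrix.vecMul v (T k)) c • wv c := by
          rw [map_sum]
          simp only [map_smul, hT, Finset.smul_sum, smul_smul]
          rw [Finset.sum_comm]
          apply Finset.sum_congr rfl
          intro c _
          rw [← Finset.sum_smul]
          rfl
        rw [h1]
        apply ih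
        intro w hw
        rw [Matrix.vecMul_vecMul]
        have h2 := hv (k :: w) (by rw [List.length_cons, hw])
        rwa [List.map_cons, List.prod_cons] at h2
      choose g hg1 hg2 using h0
      refine ⟨eps K n (∑ a, v a • wv a) • (1 : FA K n) + ∑ k, gx k * g k, ?_, ?_⟩
      · apply Submodule.add_mem
        · exact Submodule.smul_mem _ _ one_mem_degA
        · apply Submodule.sum_mem
          intro k _
          rw [Nat.add_comm]
          exact degA_mul (gx_mem_degA k) (hg1 k)
      · conv_rhs => rw [lam_expand φ N hφ0 hNJ (∑ a, v a • wv a)]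
        rw [map_add, map_smul, map_one φ, map_sum φ]
        congr 1
        apply Finset.sum_congr rfl
        intro k _
        rw [map_mul, hg2]
  intro i
  have h1 := b.sum_repr ⟨gx i, hgx i⟩
  have h2 := congrArg Subtype.val h1
  simp only [Submodule.coe_sum, Submodule.coe_smul] at h2
  obtain ⟨g, hg1, hg2⟩ := key s (fun a => b.repr ⟨gx i, hgx i⟩ a) (fun w hw => by
    rw [hnil w (by rw [Fintype.card_fin, hw]), Matrix.vecMul_zero])
  refine ⟨g, degA_mono hsl hg1, ?_⟩
  rw [hg2]
  exact h2

end Pool.Agent.Y814.FD
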