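import Pool.Agent.Y814.FD.QStep
import Pool.Agent.H193R3.PartC

set_option autoImplicit false

/-!
The quantitative detection property for the enveloping algebra of the free algebra.
-/

namespace Pool.Agent.Y814.FD

open Pool.Agent.H193R3

universe u v w

open Matrix

open scoped TensorProduct
open MulOpposite

/-- the detection property for `K⟨Y⟩⟨X⟩`, with bounds independent of the field -/
theorem two_q (K : Type u) [Field K] (n s e S S1 g0 : ℕ) (hS : S = s * (1 + n) ^ e)
    (hS1 : S1 = S * (1 + n) ^ e) (hg0 : g0 = lv (S * (1 + n) ^ (lv S * (S1 + e)))) :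
    UE s e (lv S * g0) (S * (S1 + e + 1) + S1) (((Fil.triv K).ext (Fin n)).ext (Fin n)) := by
  have h1 : UE S e (lv S1) S1 ((Fil.triv K).ext (Fin n)) := by
    have := one_q (X := Fin n) K S e
    rw [Fintype.card_fin] at this
    rwa [hS1]
  have h2 : UN S (lv S * (S1 + e)) g0 ((Fil.triv K).ext (Fin n)) := by
    have := one_q (X := Fin n) (Polynomial K) S (lv S * (S1 + e))
    rw [Fintype.card_fin, ← hg0] at this
    exact nil_q K S _ _ _ this
  have h3 := step_q (X := Fin n) (F := (Fil.triv K).ext (Fin n)) (embDiv_free K n) s e (lv S1) S1 g0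
  rw [Fintype.card_fin, ← hS] at h3
  have h4 := h3 h1 h2
  have h5 : max (lv S1) (lv S * g0) = lv S * g0 := by
    apply max_eq_right
    have h6 : lv S1 ≤ g0 := by
      have h7 : e ≤ lv S * (S1 + e) := by
        calc e ≤ 1 * (S1 + e) := by omega
          _ ≤ lv S * (S1 + e) := Nat.mul_le_mul (lv_pos S) le_rfl
      rw [hg0]
      apply lv_mono
      calc S1 = S * (1 + n) ^ e := hS1
        _ ≤ S * (1 + n) ^ (lv S * (S1 + e)) :=
          Nat.mul_le_mul le_rfl (Nat.pow_le_pow_right (by omega) h7)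
    calc lv S1 ≤ 1 * g0 := by omega
      _ ≤ lv S * g0 := Nat.mul_le_mul (lv_pos S) le_rfl
  rwa [h5] at h4

variable {K : Type u} [Field K] {n : ℕ}

/-- the filtration of the iterated algebra -/
noncomputable abbrev FM (K : Type u) [Field K] (n : ℕ) : Fil (MM K n) :=
  ((Fil.triv K).ext (Fin n)).ext (Fin n)

lemma ext_triv_iff {a : ℕ} (x : FA K n) : x ∈ ((Fil.triv K).ext (Fin n)).D a ↔ x ∈ degA K n a := by
  rw [mem_degA]
  exact ⟨fun h => h.1, fun h => ⟨h, fun _ => trivial⟩⟩

lemma mon_mem_degA {a : ℕ} (w : FreeMonoid (Fin n)) (hw : w.length ≤ a) :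
    (mon w : FA K n) ∈ degA K n a :=
  (ext_triv_iff _).1 (Fil.ext_single w 1 hw trivial)

/-- reversal of words -/
lemma revOp_mon (w : FreeMonoid (Fin n)) :
    ∃ v : FreeMonoid (Fin n), v.length = w.length ∧ unop (revOp K n (mon w)) = mon v := by
  induction w using FreeMonoid.inductionOn' with
  | one => exact ⟨1, rfl, by rw [mon_one, map_one, unop_one]⟩
  | of_mul i w ih =>
    obtain ⟨v, hv, h⟩ := ih
    refine ⟨v * FreeMonoid.of i, ?_, ?_⟩
    · rw [FreeMonoid.length_mul, FreeMonoid.length_mul, hv, Nat.add_comm]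
    · rw [mon_mul, map_mul, unop_mul, h, mon_mul, mon_of, revOp_gx, unop_op]

lemma FA_sum_mem {P : Submodule K (FA K n)} {a : ℕ} (x : FA K n) (hx : x ∈ degA K n a)
    (h : ∀ w : FreeMonoid (Fin n), w.length ≤ a → (mon w : FA K n) ∈ P) : x ∈ P := by
  rw [FA_sum x]
  apply Submodule.sum_mem
  intro w hw
  apply Submodule.smul_mem
  apply h
  by_contra hlt
  exact (Finsupp.mem_support_iff.mp hw) (mem_degA.1 hx w (by omega))

lemma revOp_mem {a : ℕ} {x : FA K n} (hx : x ∈ degA K n a) :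
    unop (revOp K n x) ∈ degA K n a := by
  rw [FA_sum x, map_sum, Finset.unop_sum]
  apply Submodule.sum_mem
  intro w hw
  rw [map_smul, unop_smul]
  apply Submodule.smul_mem
  obtain ⟨v, hv, h⟩ := revOp_mon (K := K) w
  rw [h]
  apply mon_mem_degA
  by_contra hlt
  exact (Finsupp.mem_support_iff.mp hw) (mem_degA.1 hx w (by omega))

lemma fwd_ll_mon {a : ℕ} (w : FreeMonoid (Fin n)) (hw : w.length ≤ a) :
    fwd K n (ll K n (mon w)) ∈ (FM K n).D a := by
  rw [fwd_ll, fL_mon]
  exact Fil.ext_single w 1 hw (Fil.one _ _)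

lemma fwd_rr_mon {a : ℕ} (w : FreeMonoid (Fin n)) (hw : w.length ≤ a) :
    fwd K n (rr K n (mon w)) ∈ (FM K n).D a := by
  rw [fwd_rr]
  apply Fil.ext_single 1 _ (by simp)
  rw [ext_triv_iff]
  exact revOp_mem (mon_mem_degA w hw)

lemma FM_smul {a : ℕ} (c : K) {x : MM K n} (hx : x ∈ (FM K n).D a) : c • x ∈ (FM K n).D a := by
  have h1 : c • x = algebraMap K (MM K n) c * x := Algebra.smul_def _ _
  have h2 : algebraMap K (MM K n) c ∈ (FM K n).D 0 := by
    have h3 : algebraMap K (MM K n) c = MonoidAlgebra.single 1 (algebraMap K (FA K n) c) := rfl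
    rw [h3]
    apply Fil.ext_single 1 _ (by simp)
    have h4 : algebraMap K (FA K n) c = MonoidAlgebra.single 1 c := rfl
    rw [h4]
    exact Fil.ext_single 1 _ (by simp) trivial
  have h5 := (FM K n).mul h2 hx
  rw [Nat.zero_add] at h5
  rw [h1]
  exact h5

lemma fwd_dd_mon (j : Fin n) (w : FreeMonoid (Fin n)) :
    fwd K n (dd j (mon w)) ∈ (FM K n).D w.length := by
  induction w using FreeMonoid.inductionOn' with
  | one => rw [mon_one, dd_one, map_zero]; exact Fil.zero _ _
  | of_mul i w ih =>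
    rw [dd_of_mul, map_add, map_mul, FreeMonoid.length_mul, FreeMonoid.length_of]
    apply (FM K n).add
    · split_ifs
      · exact fwd_rr_mon w (by omega)
      · rw [map_zero]; exact Fil.zero _ _
    · exact (FM K n).mul (fwd_ll_mon (FreeMonoid.of i) (by simp)) ih

lemma fwd_dd {a : ℕ} (j : Fin n) {x : FA K n} (hx : x ∈ degA K n a) :
    fwd K n (dd j x) ∈ (FM K n).D a := by
  rw [FA_sum x, map_sum, map_sum]
  apply Fil.sum
  intro w hw
  rw [map_smul, map_smul]
  apply FM_smul
  apply (FM K n).mono _ _ (fwd_dd_mon j w)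
  by_contra hlt
  exact (Finsupp.mem_support_iff.mp hw) (mem_degA.1 hx w (by omega))

lemma bwd_mem {a : ℕ} {x : MM K n} (hx : x ∈ (FM K n).D a) : bwd K n x ∈ degAA K n a := by
  have h1 : x = ∑ w ∈ x.coeff.support, MonoidAlgebra.single w (x.coeff w) := by
    conv_lhs => rw [← MonoidAlgebra.sum_coeff_single x]
    rfl
  rw [h1, map_sum]
  apply Submodule.sum_mem
  intro w _
  rw [bwd_single, ← ll_rr_comm]
  apply Submodule.subset_span
  refine ⟨mon w, _, revOp_mem ?_, rfl⟩
  rw [← ext_triv_iff]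
  exact hx.2 w

/-- transfer of the detection property to the enveloping algebra -/
theorem env_q (K : Type u) [Field K] (n s e S S1 g0 : ℕ) (hS : S = s * (1 + n) ^ e)
    (hS1 : S1 = S * (1 + n) ^ e) (hg0 : g0 = lv (S * (1 + n) ^ (lv S * (S1 + e))))
    (ι : Type) [Fintype ι] [DecidableEq ι] (hι : Fintype.card ι ≤ s) (L : Matrix ι ι (AA K n))
    (hL : ∀ i j, fwd K n (L i j) ∈ (FM K n).D e) (hAU : AU (lv S * g0) L) :
    ∃ L' : Matrix ι ι (AA K n), L * L' = 1 ∧ L' * L = 1 ∧
      ∀ i j, L' i j ∈ degAA K n (S * (S1 + e + 1) + S1) := by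
  obtain ⟨V, hV1, hV2, hV3⟩ := two_q K n s e S S1 g0 hS hS1 hg0 ι hι
    ((fwd K n).toRingHom.mapMatrix L) hL (by
    intro κ _ _ hκ R _ _ ev
    have := hAU κ hκ R (ev.comp (fwd K n).toRingHom)
    exact this)
  have h3 : (bwd K n).mapMatrix ((fwd K n).toRingHom.mapMatrix L) = L := by
    refine Matrix.ext fun i j => ?_
    exact bwd_fwd (L i j)
  refine ⟨(bwd K n).mapMatrix V, ?_, ?_, fun i j => bwd_mem (hV3 i j)⟩
  · have := congrArg (bwd K n).mapMatrix hV1
    rwa [map_mul, h3, map_one] at this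
  · have := congrArg (bwd K n).mapMatrix hV2
    rwa [map_mul, h3, map_one] at this

end Pool.Agent.Y814.FD
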